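import Mathlib

open Finset

namespace Pool.Agent.Lib.MP_fce458_co

/-- The common neighbourhood of `S` in `W` under the relation `r`. -/
noncomputable def cn {α β : Type*} (r : α → β → Prop) (S : Finset α) (W : Finset β) :
    Finset β := by
  classical exact W.filter (fun w => ∀ a ∈ S, r a w)

/-- The number of elements of `A` related to `w`. -/
noncomputable def dg {α β : Type*} (r : α → β → Prop) (A : Finset α) (w : β) : ℕ := by
  classical exact (A.filter (fun a => r a w)).card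

variable {α β : Type*}

lemma mem_cn {r : α → β → Prop} {S : Finset α} {W : Finset β} {w : β} :
    w ∈ cn r S W ↔ w ∈ W ∧ ∀ a ∈ S, r a w := by
  classical
  simp [cn]

lemma cn_subset (r : α → β → Prop) (S : Finset α) (W : Finset β) : cn r S W ⊆ W := by
  intro w hw
  exact (mem_cn.1 hw).1

lemma cn_anti {r : α → β → Prop} {S T : Finset α} (h : S ⊆ T) (W : Finset β) :
    cn r T W ⊆ cn r S W := by
  intro w hw
  rw [mem_cn] at hw ⊢
  exact ⟨hw.1, fun a ha => hw.2 a (h ha)⟩

lemma dg_le (r : α → β → Prop) (A : Finset α) (w : β) : dg r A w ≤ A.card := by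
  classical
  unfold dg
  exact card_filter_le _ _

/-- Double counting of pairs (t-subset of A, common neighbour). -/
lemma sum_cn (r : α → β → Prop) (A : Finset α) (W : Finset β) (t : ℕ) :
    ∑ S ∈ A.powersetCard t, (cn r S W).card = ∑ w ∈ W, (dg r A w).choose t := by
  classical
  have h1 : ∀ S ∈ A.powersetCard t, (cn r S W).card
      = ∑ w ∈ W, if (∀ a ∈ S, r a w) then 1 else 0 := by
    intro S _
    unfold cn
    rw [card_filter]
  rw [sum_congr rfl h1, sum_comm]
  refine sum_congr rfl ?_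
  intro w _
  rw [← card_filter]
  have : (A.powersetCard t).filter (fun S => ∀ a ∈ S, r a w)
      = (A.filter (fun a => r a w)).powersetCard t := by
    ext S
    simp only [mem_filter, mem_powersetCard]
    constructor
    · rintro ⟨⟨h1, h2⟩, h3⟩
      exact ⟨fun a ha => mem_filter.2 ⟨h1 ha, h3 a ha⟩, h2⟩
    · rintro ⟨h1, h2⟩
      exact ⟨⟨fun a ha => (mem_filter.1 (h1 ha)).1, h2⟩, fun a ha => (mem_filter.1 (h1 ha)).2⟩
  rw [this, card_powersetCard]
  rfl

/-- Double counting of edges. -/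
lemma sum_dg (r : α → β → Prop) (A : Finset α) (W : Finset β) :
    ∑ a ∈ A, (cn r {a} W).card = ∑ w ∈ W, dg r A w := by
  classical
  have h1 : ∀ a ∈ A, (cn r {a} W).card = ∑ w ∈ W, if r a w then 1 else 0 := by
    intro a _
    unfold cn
    rw [card_filter]
    refine sum_congr rfl ?_
    intro w _
    simp
  rw [sum_congr rfl h1, sum_comm]
  refine sum_congr rfl ?_
  intro w _
  rw [← card_filter]
  rfl

lemma jensen {ι : Type*} (s : Finset ι) (y : ι → ℝ) (hy : ∀ i ∈ s, 0 ≤ y i) (m : ℝ) (hm : 0 ≤ m)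
    (h : m * (s.card : ℝ) ≤ ∑ i ∈ s, y i) (t : ℕ) :
    (s.card : ℝ) * m ^ t ≤ ∑ i ∈ s, y i ^ t := by
  rcases s.eq_empty_or_nonempty with rfl | hs
  · simp
  have hc : (0 : ℝ) < s.card := by exact_mod_cast card_pos.2 hs
  have := Real.pow_arith_mean_le_arith_mean_pow s (fun _ => 1 / (s.card : ℝ)) y
    (fun i _ => by positivity) (by simp; field_simp) hy t
  rw [← mul_sum, ← mul_sum] at this
  have h2 : m ≤ 1 / (s.card : ℝ) * ∑ i ∈ s, y i := by
    rw [div_mul_eq_mul_div, one_mul, le_div_iff₀ hc]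
    exact h
  have h3 : m ^ t ≤ 1 / (s.card : ℝ) * ∑ i ∈ s, y i ^ t :=
    le_trans (pow_le_pow_left₀ hm h2 t) this
  rw [div_mul_eq_mul_div, one_mul, le_div_iff₀ hc] at h3
  linarith [h3]

lemma sub_pow_le_choose (d t : ℕ) :
    (max ((d : ℝ) - t) 0) ^ t ≤ (t.factorial : ℝ) * (d.choose t : ℝ) := by
  have h := Nat.pow_le_choose (α := ℝ) t d
  have hf : (0 : ℝ) < t.factorial := by exact_mod_cast t.factorial_pos
  rw [div_le_iff₀' hf] at h
  refine le_trans ?_ h
  apply pow_le_pow_left₀ (le_max_right _ _)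
  apply max_le
  · have : d ≤ (d + 1 - t) + t := by omega
    have h2 : (d : ℝ) ≤ ((d + 1 - t : ℕ) : ℝ) + t := by exact_mod_cast this
    linarith
  · positivity

lemma choose_le_pow_div' (d t : ℕ) :
    (t.factorial : ℝ) * (d.choose t : ℝ) ≤ (d : ℝ) ^ t := by
  have h := Nat.choose_le_pow_div (α := ℝ) t d
  have hf : (0 : ℝ) < t.factorial := by exact_mod_cast t.factorial_pos
  rw [le_div_iff₀' hf] at h
  exact h

/-- Kővári–Sós–Turán, summed form. -/
lemma kst_sum (r : α → β → Prop) (A : Finset α) (W : Finset β) (t : ℕ) (p : ℝ)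
    (hdeg : ∀ a ∈ A, p * (W.card : ℝ) ≤ ((cn r {a} W).card : ℝ))
    (hp : (t : ℝ) ≤ p * A.card) :
    (W.card : ℝ) * (p * A.card - t) ^ t
      ≤ (t.factorial : ℝ) * ∑ S ∈ A.powersetCard t, ((cn r S W).card : ℝ) := by
  have h1 : (∑ S ∈ A.powersetCard t, ((cn r S W).card : ℝ))
      = ∑ w ∈ W, ((dg r A w).choose t : ℝ) := by
    exact_mod_cast sum_cn r A W t
  have h2 : (∑ a ∈ A, ((cn r {a} W).card : ℝ)) = ∑ w ∈ W, (dg r A w : ℝ) := by
    exact_mod_cast sum_dg r A W
  rw [h1, mul_sum]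
  have h3 : ∀ w ∈ W, (max ((dg r A w : ℝ) - t) 0) ^ t
      ≤ (t.factorial : ℝ) * ((dg r A w).choose t : ℝ) := fun w _ => sub_pow_le_choose _ _
  refine le_trans ?_ (sum_le_sum h3)
  apply jensen W (fun w => max ((dg r A w : ℝ) - t) 0) (fun w _ => le_max_right _ _)
    _ (by linarith)
  have h4 : ∑ w ∈ W, ((dg r A w : ℝ) - t) ≤ ∑ w ∈ W, max ((dg r A w : ℝ) - t) 0 :=
    sum_le_sum (fun w _ => le_max_left _ _)
  refine le_trans ?_ h4
  rw [sum_sub_distrib, ← h2, sum_const, nsmul_eq_mul]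
  have h5 : (A.card : ℝ) * (p * W.card) ≤ ∑ a ∈ A, ((cn r {a} W).card : ℝ) := by
    have := sum_le_sum (f := fun _ => p * (W.card : ℝ)) hdeg
    rw [sum_const, nsmul_eq_mul] at this
    exact this
  nlinarith [h5]

/-- From a sum to a single set: some `t`-subset is at least the average. -/
lemma exists_of_sum (A : Finset α) (t : ℕ) (f : Finset α → ℝ) (x : ℝ)
    (hA : t ≤ A.card) (hx : 0 ≤ x)
    (h : x * (A.card : ℝ) ^ t ≤ (t.factorial : ℝ) * ∑ S ∈ A.powersetCard t, f S) :
    ∃ S ∈ A.powersetCard t, x ≤ f S := by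
  by_contra hcon
  push Not at hcon
  have hne : (A.powersetCard t).Nonempty := powersetCard_nonempty.2 hA
  have h1 : ∑ S ∈ A.powersetCard t, f S < ∑ S ∈ A.powersetCard t, x :=
    sum_lt_sum_of_nonempty hne hcon
  rw [sum_const, nsmul_eq_mul, card_powersetCard] at h1
  have hf : (0 : ℝ) < t.factorial := by exact_mod_cast t.factorial_pos
  have h2 := choose_le_pow_div' A.card t
  have h3 : (t.factorial : ℝ) * ∑ S ∈ A.powersetCard t, f S
      < (t.factorial : ℝ) * (((A.card).choose t : ℝ) * x) := mul_lt_mul_of_pos_left h1 hf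
  nlinarith [mul_le_mul_of_nonneg_right h2 hx]

/-- Kővári–Sós–Turán: if every vertex of `A` has at least `p |W|` neighbours in `W` and
`t ≤ δ |A|`, then some `t`-subset of `A` has at least `(p - δ)^t |W|` common neighbours. -/
lemma kst (r : α → β → Prop) (A : Finset α) (W : Finset β) (t : ℕ) (p δ : ℝ)
    (hδ1 : δ ≤ 1) (hpδ : δ ≤ p)
    (hdeg : ∀ a ∈ A, p * (W.card : ℝ) ≤ ((cn r {a} W).card : ℝ))
    (hA : (t : ℝ) ≤ δ * A.card) :
    ∃ S ⊆ A, S.card = t ∧ (W.card : ℝ) * (p - δ) ^ t ≤ ((cn r S W).card : ℝ) := by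
  have hA0 : (0 : ℝ) ≤ A.card := by positivity
  have h1 := kst_sum r A W t p hdeg (by nlinarith)
  have htA : t ≤ A.card := by
    have : (t : ℝ) ≤ A.card := by nlinarith
    exact_mod_cast this
  have h2 : (W.card : ℝ) * (p - δ) ^ t * (A.card : ℝ) ^ t
      ≤ (W.card : ℝ) * (p * A.card - t) ^ t := by
    rw [mul_assoc, ← mul_pow]
    apply mul_le_mul_of_nonneg_left _ (by positivity)
    apply pow_le_pow_left₀
    · apply mul_nonneg (by linarith) hA0
    · nlinarith
  obtain ⟨S, hS, hS2⟩ := exists_of_sum A t (fun S => ((cn r S W).card : ℝ))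
    ((W.card : ℝ) * (p - δ) ^ t) htA (by
      apply mul_nonneg (by positivity)
      apply pow_nonneg; linarith) (le_trans h2 h1)
  rw [mem_powersetCard] at hS
  exact ⟨S, hS.1, hS.2, hS2⟩

end Pool.Agent.Lib.MP_fce458_co
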