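import Mathlib
import Pool.Agent.Lib.MP_fce458_co.KST

open Finset

namespace Pool.Agent.Lib.MP_fce458_co

variable {α β γ : Type*}

/-- there is no `t` by `t` rectangle in `A × W` all of whose pairs satisfy `r` -/
def NoK2 (t : ℕ) (r : α → β → Prop) (A : Finset α) (W : Finset β) : Prop :=
  ∀ S ⊆ A, ∀ T ⊆ W, S.card = t → T.card = t → ¬ ∀ a ∈ S, ∀ w ∈ T, r a w

lemma NoK2.mono {t : ℕ} {r : α → β → Prop} {A A' : Finset α} {W W' : Finset β}
    (h : NoK2 t r A W) (hA : A' ⊆ A) (hW : W' ⊆ W) : NoK2 t r A' W' :=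
  fun S hS T hT h1 h2 => h S (hS.trans hA) T (hT.trans hW) h1 h2

lemma NoK2.swap {t : ℕ} {r : α → β → Prop} {A : Finset α} {W : Finset β}
    (h : NoK2 t r A W) : NoK2 t (fun w a => r a w) W A :=
  fun S hS T hT h1 h2 h3 => h T hT S hS h2 h1 (fun a ha w hw => h3 w hw a ha)

lemma NoK2.false_of_large {t : ℕ} {r : α → β → Prop} {A : Finset α} {W : Finset β}
    (h : NoK2 t r A W) (p δ : ℝ) (hδ1 : δ ≤ 1) (hpδ : δ ≤ p)
    (hdeg : ∀ a ∈ A, p * (W.card : ℝ) ≤ ((cn r {a} W).card : ℝ))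
    (hA : (t : ℝ) ≤ δ * A.card) (hW : (t : ℝ) ≤ W.card * (p - δ) ^ t) : False := by
  obtain ⟨S, hS, hSt, hS2⟩ := kst r A W t p δ hδ1 hpδ hdeg hA
  have h1 : t ≤ (cn r S W).card := by
    have : (t : ℝ) ≤ (cn r S W).card := le_trans hW hS2
    exact_mod_cast this
  obtain ⟨T, hT, hTt⟩ := exists_subset_card_eq h1
  exact h S hS T (hT.trans (cn_subset _ _ _)) hSt hTt
    (fun a ha w hw => (mem_cn.1 (hT hw)).2 a ha)

/-- Few vertices of `A` have large degree if there is no `K_{t,t}`. -/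
lemma NoK2.few_bad {t : ℕ} {r : α → β → Prop} {A : Finset α} {W : Finset β}
    (h : NoK2 t r A W) (ρ δ : ℝ) (hδ1 : δ ≤ 1) (hpδ : δ ≤ ρ)
    (hW : (t : ℝ) ≤ W.card * (ρ - δ) ^ t) (B : Finset α) (hB : B ⊆ A)
    (hBdeg : ∀ a ∈ B, ρ * (W.card : ℝ) ≤ ((cn r {a} W).card : ℝ)) :
    δ * B.card < t := by
  by_contra hcon
  push Not at hcon
  exact (h.mono hB (Subset.refl W)).false_of_large ρ δ hδ1 hpδ hBdeg hcon hW

lemma card_cn_not (r : α → β → Prop) (a : α) (W : Finset β) :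
    (cn r {a} W).card + (cn (fun a w => ¬ r a w) {a} W).card = W.card := by
  classical
  have := card_filter_add_card_filter_not (s := W) (fun w => r a w)
  simpa [cn] using this

/-- No monochromatic `K_{t,t}` in either colour is impossible for large sets. -/
lemma final_step {t : ℕ} {r : α → β → Prop} {A : Finset α} {W : Finset β}
    (h1 : NoK2 t r A W) (h2 : NoK2 t (fun a w => ¬ r a w) A W) (δ : ℝ)
    (hδ0 : 0 < δ) (hδ : δ ≤ 1 / 2) (hA : 2 * (t : ℝ) ≤ δ * A.card)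
    (hW : (t : ℝ) ≤ W.card * (1 / 2 - δ) ^ t) : False := by
  classical
  set A1 := A.filter (fun a => 1 / 2 * (W.card : ℝ) ≤ ((cn r {a} W).card : ℝ)) with hA1
  set A2 := A.filter (fun a => ¬ 1 / 2 * (W.card : ℝ) ≤ ((cn r {a} W).card : ℝ)) with hA2
  have hsum : (A1.card : ℝ) + A2.card = A.card := by
    exact_mod_cast card_filter_add_card_filter_not (s := A) _
  have h1' : δ * A1.card < t := by
    refine h1.few_bad (1 / 2) δ (by linarith) hδ hW A1 (filter_subset _ _) ?_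
    intro a ha
    exact (mem_filter.1 ha).2
  have h2' : δ * A2.card < t := by
    refine h2.few_bad (1 / 2) δ (by linarith) hδ hW A2 (filter_subset _ _) ?_
    intro a ha
    have h3 := (mem_filter.1 ha).2
    push Not at h3
    have h4 : ((cn r {a} W).card : ℝ) + ((cn (fun a w => ¬ r a w) {a} W).card : ℝ)
        = W.card := by exact_mod_cast card_cn_not r a W
    linarith
  nlinarith

/-- Removing the few vertices of large degree. -/
lemma exists_good_subset {t : ℕ} {r : α → β → Prop} {A : Finset α} {W : Finset β}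
    (h : NoK2 t r A W) (ρ δ : ℝ) (hδ1 : δ ≤ 1) (hpδ : δ ≤ ρ)
    (hW : (t : ℝ) ≤ W.card * (ρ - δ) ^ t) :
    ∃ B ⊆ A, δ * B.card < t ∧ ∀ a ∈ A, a ∉ B →
      (1 - ρ) * (W.card : ℝ) ≤ ((cn (fun a w => ¬ r a w) {a} W).card : ℝ) := by
  classical
  refine ⟨A.filter (fun a => ρ * (W.card : ℝ) ≤ ((cn r {a} W).card : ℝ)), filter_subset _ _,
    ?_, ?_⟩
  · refine h.few_bad ρ δ hδ1 hpδ hW _ (filter_subset _ _) ?_
    intro a ha
    exact (mem_filter.1 ha).2
  · intro a ha hna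
    have h3 : ¬ ρ * (W.card : ℝ) ≤ ((cn r {a} W).card : ℝ) := by
      intro hc
      exact hna (mem_filter.2 ⟨ha, hc⟩)
    push Not at h3
    have h4 : ((cn r {a} W).card : ℝ) + ((cn (fun a w => ¬ r a w) {a} W).card : ℝ)
        = W.card := by exact_mod_cast card_cn_not r a W
    linarith

lemma cn_prod (r1 : α → β → Prop) (r2 : α → γ → Prop) (S : Finset α) (X : Finset β)
    (Y : Finset γ) :
    cn (fun a (w : β × γ) => r1 a w.1 ∧ r2 a w.2) S (X ×ˢ Y) = cn r1 S X ×ˢ cn r2 S Y := by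
  ext w
  simp only [mem_cn, mem_product]
  constructor
  · rintro ⟨⟨h1, h2⟩, h3⟩
    exact ⟨⟨h1, fun a ha => (h3 a ha).1⟩, ⟨h2, fun a ha => (h3 a ha).2⟩⟩
  · rintro ⟨⟨h1, h3⟩, ⟨h2, h4⟩⟩
    exact ⟨⟨h1, h2⟩, fun a ha => ⟨h3 a ha, h4 a ha⟩⟩

/-- Two-sided Kővári–Sós–Turán. -/
lemma kst2 (r1 : α → β → Prop) (r2 : α → γ → Prop) (A : Finset α) (X : Finset β) (Y : Finset γ)
    (t : ℕ) (p1 p2 δ : ℝ) (hp2 : 0 ≤ p2) (hδ1 : δ ≤ 1) (hpδ : δ ≤ p1 * p2)
    (hdeg1 : ∀ a ∈ A, p1 * (X.card : ℝ) ≤ ((cn r1 {a} X).card : ℝ))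
    (hdeg2 : ∀ a ∈ A, p2 * (Y.card : ℝ) ≤ ((cn r2 {a} Y).card : ℝ))
    (hA : (t : ℝ) ≤ δ * A.card) :
    ∃ S ⊆ A, S.card = t ∧
      ((X.card : ℝ) * Y.card) * (p1 * p2 - δ) ^ t
        ≤ ((cn r1 S X).card : ℝ) * ((cn r2 S Y).card : ℝ) := by
  have h := kst (fun a (w : β × γ) => r1 a w.1 ∧ r2 a w.2) A (X ×ˢ Y) t (p1 * p2) δ hδ1 hpδ
    (by
      intro a ha
      rw [cn_prod, card_product, card_product]
      push_cast
      have h1 := hdeg1 a ha
      have h2 := hdeg2 a ha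
      have hX : (0 : ℝ) ≤ X.card := by positivity
      have hY : (0 : ℝ) ≤ Y.card := by positivity
      calc p1 * p2 * ((X.card : ℝ) * Y.card) = (p1 * X.card) * (p2 * Y.card) := by ring
        _ ≤ ((cn r1 {a} X).card : ℝ) * ((cn r2 {a} Y).card : ℝ) := by
            apply mul_le_mul h1 h2 (by positivity) (by positivity)) hA
  obtain ⟨S, hS, hSt, hS2⟩ := h
  refine ⟨S, hS, hSt, ?_⟩
  rw [cn_prod, card_product, card_product] at hS2
  push_cast at hS2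
  exact hS2

/-- The balanced step. -/
lemma stepP {t : ℕ} (r1 : α → β → Prop) (r2 : α → γ → Prop) (r3 : β → γ → Prop)
    (Z : Finset α) (X : Finset β) (Y : Finset γ)
    (h1 : NoK2 t r1 Z X) (h2 : NoK2 t r2 Z Y) (h3 : NoK2 t r3 X Y)
    (h4 : ∀ S ⊆ Z, ∀ S1 ⊆ X, ∀ S2 ⊆ Y, S.card = t → S1.card = t → S2.card = t →
      ¬ ((∀ a ∈ S, ∀ b ∈ S1, ¬ r1 a b) ∧ (∀ a ∈ S, ∀ c ∈ S2, ¬ r2 a c) ∧
        (∀ b ∈ S1, ∀ c ∈ S2, ¬ r3 b c)))
    (δ c1 c2 q h : ℝ) (hδ0 : 0 < δ) (hδ : δ ≤ 1 / 2)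
    (hc1 : 0 < c1) (hc2 : 0 < c2)
    (hX : (X.card : ℝ) = c1 ^ t) (hY : (Y.card : ℝ) = c2 ^ t)
    (ht1 : (t : ℝ) ≤ (1 + δ) ^ t) (ht2 : 4 * (t : ℝ) ≤ δ * (1 + δ) ^ t)
    (hZ : (1 + δ) ^ t ≤ (Z.card : ℝ))
    (hp2 : (1 + δ) / c2 + δ ≤ 1)
    (hpp : δ ≤ (1 - ((1 + δ) / c1 + δ)) * (1 - ((1 + δ) / c2 + δ)))
    (hq0 : 0 < q)
    (hq : q ≤ c1 * c2 * ((1 - ((1 + δ) / c1 + δ)) * (1 - ((1 + δ) / c2 + δ)) - δ))
    (hq1 : (1 + δ) * c1 ≤ q) (hq2 : (1 + δ) * c2 ≤ q)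
    (hh0 : 0 ≤ h) (hh1 : 1 + δ ≤ h * (1 / 2 - δ)) (hh2 : h ^ 2 ≤ q) : False := by
  classical
  have hd : (0 : ℝ) ≤ (1 + δ) := by linarith
  set ρ1 := (1 + δ) / c1 + δ with hρ1
  set ρ2 := (1 + δ) / c2 + δ with hρ2
  have e1 : (X.card : ℝ) * (ρ1 - δ) ^ t = (1 + δ) ^ t := by
    rw [hX, ← mul_pow, hρ1]
    congr 1
    field_simp
    ring
  have e2 : (Y.card : ℝ) * (ρ2 - δ) ^ t = (1 + δ) ^ t := by
    rw [hY, ← mul_pow, hρ2]
    congr 1
    field_simp
    ring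
  have hρ1δ : δ ≤ ρ1 := by
    rw [hρ1]; have : 0 ≤ (1 + δ) / c1 := by positivity
    linarith
  have hρ2δ : δ ≤ ρ2 := by
    rw [hρ2]; have : 0 ≤ (1 + δ) / c2 := by positivity
    linarith
  obtain ⟨B1, hB1, hB1c, hB1g⟩ := exists_good_subset h1 ρ1 δ (by linarith) hρ1δ (by rw [e1]; exact ht1)
  obtain ⟨B2, hB2, hB2c, hB2g⟩ := exists_good_subset h2 ρ2 δ (by linarith) hρ2δ (by rw [e2]; exact ht1)
  set Z0 := Z \ (B1 ∪ B2) with hZ0
  have hZ0c : (Z.card : ℝ) ≤ Z0.card + B1.card + B2.card := by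
    have ha : Z.card ≤ Z0.card + (B1 ∪ B2).card := by
      have := le_card_sdiff (B1 ∪ B2) Z
      rw [hZ0]
      omega
    have hb : (B1 ∪ B2).card ≤ B1.card + B2.card := card_union_le _ _
    have hc : Z.card ≤ Z0.card + B1.card + B2.card := by omega
    exact_mod_cast hc
  have hZ0t : (t : ℝ) ≤ δ * Z0.card := by
    have ha : δ * (Z.card : ℝ) ≤ δ * (Z0.card + B1.card + B2.card) :=
      mul_le_mul_of_nonneg_left hZ0c hδ0.le
    have hb : δ * (1 + δ) ^ t ≤ δ * (Z.card : ℝ) := mul_le_mul_of_nonneg_left hZ hδ0.le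
    nlinarith
  obtain ⟨S, hS, hSt, hSp⟩ := kst2 (fun a b => ¬ r1 a b) (fun a c => ¬ r2 a c) Z0 X Y t
    (1 - ρ1) (1 - ρ2) δ (by linarith) (by linarith) hpp
    (fun a ha => by
      rw [hZ0, mem_sdiff, mem_union] at ha
      exact hB1g a ha.1 (fun h => ha.2 (Or.inl h)))
    (fun a ha => by
      rw [hZ0, mem_sdiff, mem_union] at ha
      exact hB2g a ha.1 (fun h => ha.2 (Or.inr h))) hZ0t
  set XS := cn (fun a b => ¬ r1 a b) S X with hXS
  set YS := cn (fun a c => ¬ r2 a c) S Y with hYS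
  have hSZ : S ⊆ Z := hS.trans sdiff_subset
  have hprod : q ^ t ≤ (XS.card : ℝ) * YS.card := by
    refine le_trans ?_ hSp
    rw [hX, hY, ← mul_pow, ← mul_pow]
    exact pow_le_pow_left₀ hq0.le hq t
  have hXSle : (XS.card : ℝ) ≤ c1 ^ t := by
    have hsub : XS ⊆ X := cn_subset _ _ _
    rw [← hX]; exact_mod_cast card_le_card hsub
  have hYSle : (YS.card : ℝ) ≤ c2 ^ t := by
    have hsub : YS ⊆ Y := cn_subset _ _ _
    rw [← hY]; exact_mod_cast card_le_card hsub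
  have hXSge : (1 + δ) ^ t ≤ (XS.card : ℝ) := by
    have ha : ((1 + δ) * c2) ^ t ≤ q ^ t := pow_le_pow_left₀ (by positivity) hq2 t
    rw [mul_pow] at ha
    have hc2t : 0 < c2 ^ t := by positivity
    have hb : (XS.card : ℝ) * YS.card ≤ (XS.card : ℝ) * c2 ^ t :=
      mul_le_mul_of_nonneg_left hYSle (by positivity)
    exact le_of_mul_le_mul_right (by linarith) hc2t
  have hYSge : (1 + δ) ^ t ≤ (YS.card : ℝ) := by
    have ha : ((1 + δ) * c1) ^ t ≤ q ^ t := pow_le_pow_left₀ (by positivity) hq1 t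
    rw [mul_pow] at ha
    have hc1t : 0 < c1 ^ t := by positivity
    have hb : (XS.card : ℝ) * YS.card ≤ c1 ^ t * YS.card :=
      mul_le_mul_of_nonneg_right hXSle (by positivity)
    have hc : (1 + δ) ^ t * c1 ^ t ≤ YS.card * c1 ^ t := by linarith
    exact le_of_mul_le_mul_right hc hc1t
  have hXY1 : NoK2 t r3 XS YS := h3.mono (cn_subset _ _ _) (cn_subset _ _ _)
  have hXY2 : NoK2 t (fun b c => ¬ r3 b c) XS YS := by
    intro S1 hS1 S2 hS2 hS1t hS2t hcon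
    refine h4 S hSZ S1 (hS1.trans (cn_subset _ _ _)) S2 (hS2.trans (cn_subset _ _ _)) hSt hS1t
      hS2t ⟨?_, ?_, hcon⟩
    · intro a ha b hb
      exact (mem_cn.1 (hS1 hb)).2 a ha
    · intro a ha c hc
      exact (mem_cn.1 (hS2 hc)).2 a ha
  have hbig : ∀ m : ℝ, h ^ t ≤ m → (t : ℝ) ≤ m * (1 / 2 - δ) ^ t := by
    intro m hm
    have hhalf : (0 : ℝ) ≤ 1 / 2 - δ := by linarith
    calc (t : ℝ) ≤ (1 + δ) ^ t := ht1
      _ ≤ (h * (1 / 2 - δ)) ^ t := pow_le_pow_left₀ hd hh1 t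
      _ = h ^ t * (1 / 2 - δ) ^ t := mul_pow _ _ _
      _ ≤ m * (1 / 2 - δ) ^ t := mul_le_mul_of_nonneg_right hm (by positivity)
  have hqh : (h ^ t) ^ 2 ≤ q ^ t := by
    rw [← pow_mul, mul_comm t 2, pow_mul]
    exact pow_le_pow_left₀ (by positivity) hh2 t
  rcases le_total (h ^ t) (YS.card : ℝ) with hcase | hcase
  · refine final_step hXY1 hXY2 δ hδ0 hδ ?_ (hbig _ hcase)
    have := mul_le_mul_of_nonneg_left hXSge hδ0.le
    have ht0 : (0 : ℝ) ≤ t := by positivity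
    linarith
  · have hX2 : h ^ t ≤ (XS.card : ℝ) := by
      by_contra hcon
      push Not at hcon
      have hYSpos : (0 : ℝ) < YS.card := lt_of_lt_of_le (by positivity) hYSge
      have : (XS.card : ℝ) * YS.card < h ^ t * h ^ t := by
        calc (XS.card : ℝ) * YS.card < h ^ t * YS.card := mul_lt_mul_of_pos_right hcon hYSpos
          _ ≤ h ^ t * h ^ t := mul_le_mul_of_nonneg_left hcase (by positivity)
      nlinarith
    refine final_step hXY1.swap hXY2.swap δ hδ0 hδ ?_ (hbig _ hX2)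
    have := mul_le_mul_of_nonneg_left hYSge hδ0.le
    have ht0 : (0 : ℝ) ≤ t := by positivity
    linarith


/-- One greedy step for the unbalanced case. -/
lemma greedy_step {t : ℕ} (r1 : α → β → Prop) (r2 : α → γ → Prop)
    (Z0 : Finset α) (X : Finset β) (Y : Finset γ)
    (h1 : NoK2 t r1 Z0 X) (δ : ℝ) (hδ0 : 0 < δ) (hδ : δ ≤ 1 / 2)
    (hXbig : (t : ℝ) ≤ X.card * (1 / 2) ^ t * (1 / 2 - δ) ^ t)
    (hZ0 : 2 * (t : ℝ) ≤ δ * Z0.card) (m : γ → ℝ)
    (hm0 : ∀ y, 0 ≤ m y) (hm1 : ∀ y, m y ≤ Z0.card)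
    (hm2 : ∀ y, m y ≤ (dg r2 Z0 y : ℝ) - t ∨ m y = 0)
    (i : ℕ) (hi : i < t) (S : Finset α) (hS : S ⊆ Z0) (hSi : S.card = i)
    (hSX : (X.card : ℝ) ≤ ((cn (fun a b => ¬ r1 a b) S X).card : ℝ) * 2 ^ i)
    (P E : ℝ) (hE : E = (t : ℝ) / δ * Y.card * (Z0.card : ℝ) ^ (t - 1))
    (hSP : P ≤ (∑ y ∈ cn r2 S Y, m y ^ (t - i)) * (Z0.card : ℝ) ^ i + i * E) :
    ∃ S' ⊆ Z0, S'.card = i + 1 ∧
      (X.card : ℝ) ≤ ((cn (fun a b => ¬ r1 a b) S' X).card : ℝ) * 2 ^ (i + 1) ∧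
      P ≤ (∑ y ∈ cn r2 S' Y, m y ^ (t - (i + 1))) * (Z0.card : ℝ) ^ (i + 1) + ((i + 1 : ℕ) : ℝ) * E := by
  classical
  set z : ℝ := (Z0.card : ℝ) with hz
  have ht0 : (0 : ℝ) < t := by exact_mod_cast (lt_of_le_of_lt (Nat.zero_le i) hi)
  have hz0 : 0 < z := by
    by_contra hcon
    push Not at hcon
    nlinarith
  set XS := cn (fun a b => ¬ r1 a b) S X with hXS
  -- bad vertices
  have hXSbig : (t : ℝ) ≤ XS.card * (1 / 2 - δ) ^ t := by
    have hhalf : (0 : ℝ) ≤ 1 / 2 - δ := by linarith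
    have e1 : (X.card : ℝ) * (1 / 2) ^ t ≤ XS.card := by
      have e2 : (X.card : ℝ) * (1 / 2) ^ t ≤ (XS.card * 2 ^ i) * (1 / 2) ^ t :=
        mul_le_mul_of_nonneg_right hSX (by positivity)
      have e3 : ((XS.card : ℝ) * 2 ^ i) * (1 / 2) ^ t ≤ (XS.card * 2 ^ t) * (1 / 2) ^ t := by
        apply mul_le_mul_of_nonneg_right _ (by positivity)
        apply mul_le_mul_of_nonneg_left _ (by positivity)
        exact pow_le_pow_right₀ (by norm_num) hi.le
      have e4 : ((XS.card : ℝ) * 2 ^ t) * (1 / 2) ^ t = XS.card := by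
        rw [mul_assoc, ← mul_pow]; norm_num
      linarith
    exact le_trans hXbig (mul_le_mul_of_nonneg_right e1 (by positivity))
  have hno : NoK2 t r1 Z0 XS := h1.mono (Subset.refl _) (cn_subset _ _ _)
  obtain ⟨B, hB, hBc, hBg⟩ := exists_good_subset hno (1 / 2) δ (by linarith) hδ hXSbig
  set C := Z0 \ S with hC
  have hCsum : ∑ y ∈ cn r2 S Y, m y ^ (t - i)
      ≤ ∑ a ∈ C, ∑ y ∈ cn r2 (insert a S) Y, m y ^ (t - (i + 1)) := by
    have e1 : ∀ a ∈ C, ∑ y ∈ cn r2 (insert a S) Y, m y ^ (t - (i + 1))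
        = ∑ y ∈ cn r2 S Y, if r2 a y then m y ^ (t - (i + 1)) else 0 := by
      intro a _
      rw [← sum_filter]
      congr 1
      ext y
      simp only [mem_cn, mem_filter, mem_insert, forall_eq_or_imp]
      tauto
    rw [sum_congr rfl e1, sum_comm]
    apply sum_le_sum
    intro y hy
    rw [← sum_filter, sum_const, nsmul_eq_mul]
    have e2 : t - i = (t - (i + 1)) + 1 := by omega
    rw [e2, pow_succ, mul_comm]
    apply mul_le_mul_of_nonneg_right _ (pow_nonneg (hm0 y) _)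
    rcases hm2 y with h | h
    · refine le_trans h ?_
      have e3 : dg r2 Z0 y ≤ (C.filter (fun a => r2 a y)).card + S.card := by
        unfold dg
        have : Z0.filter (fun a => r2 a y) ⊆ C.filter (fun a => r2 a y) ∪ S := by
          intro a ha
          rw [mem_filter] at ha
          rw [mem_union, mem_filter, hC, mem_sdiff]
          by_cases haS : a ∈ S
          · exact Or.inr haS
          · exact Or.inl ⟨⟨ha.1, haS⟩, ha.2⟩
        calc _ ≤ (C.filter (fun a => r2 a y) ∪ S).card := by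
              convert card_le_card this
          _ ≤ _ := card_union_le _ _
      have e4 : (dg r2 Z0 y : ℝ) ≤ ((C.filter (fun a => r2 a y)).card : ℝ) + S.card := by
        exact_mod_cast e3
      have e5 : (S.card : ℝ) ≤ t := by exact_mod_cast (hSi ▸ hi.le)
      linarith
    · rw [h]; positivity
  have hbad : ∑ a ∈ B ∩ C, ∑ y ∈ cn r2 (insert a S) Y, m y ^ (t - (i + 1))
      ≤ (t : ℝ) / δ * Y.card * z ^ (t - (i + 1)) := by
    have e1 : ∀ a ∈ B ∩ C, ∑ y ∈ cn r2 (insert a S) Y, m y ^ (t - (i + 1))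
        ≤ Y.card * z ^ (t - (i + 1)) := by
      intro a _
      calc ∑ y ∈ cn r2 (insert a S) Y, m y ^ (t - (i + 1))
          ≤ ∑ y ∈ cn r2 (insert a S) Y, z ^ (t - (i + 1)) :=
            sum_le_sum (fun y _ => pow_le_pow_left₀ (hm0 y) (hm1 y) _)
        _ = ((cn r2 (insert a S) Y).card : ℝ) * z ^ (t - (i + 1)) := by
            rw [sum_const, nsmul_eq_mul]
        _ ≤ Y.card * z ^ (t - (i + 1)) := by
            apply mul_le_mul_of_nonneg_right _ (by positivity)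
            have hsub : cn r2 (insert a S) Y ⊆ Y := cn_subset _ _ _
            exact_mod_cast card_le_card hsub
    refine le_trans (sum_le_sum e1) ?_
    rw [sum_const, nsmul_eq_mul]
    have e2 : ((B ∩ C).card : ℝ) ≤ (t : ℝ) / δ := by
      rw [le_div_iff₀ hδ0]
      have : ((B ∩ C).card : ℝ) ≤ B.card := by exact_mod_cast card_le_card inter_subset_left
      nlinarith
    have e3 : (0 : ℝ) ≤ Y.card * z ^ (t - (i + 1)) := by positivity
    calc ((B ∩ C).card : ℝ) * (Y.card * z ^ (t - (i + 1)))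
        ≤ (t : ℝ) / δ * (Y.card * z ^ (t - (i + 1))) := mul_le_mul_of_nonneg_right e2 e3
      _ = _ := by ring
  have hsplit : ∑ a ∈ C, ∑ y ∈ cn r2 (insert a S) Y, m y ^ (t - (i + 1))
      = ∑ a ∈ C \ B, ∑ y ∈ cn r2 (insert a S) Y, m y ^ (t - (i + 1))
        + ∑ a ∈ B ∩ C, ∑ y ∈ cn r2 (insert a S) Y, m y ^ (t - (i + 1)) := by
    rw [inter_comm, ← sum_union]
    · congr 1
      ext a
      simp only [mem_union, mem_sdiff, mem_inter]
      tauto
    · rw [disjoint_left]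
      intro a ha hb
      exact (mem_sdiff.1 ha).2 (mem_inter.1 hb).2
  -- C \ B nonempty
  have hne : (C \ B).Nonempty := by
    rw [← card_pos]
    have e1 : Z0.card ≤ (C \ B).card + S.card + B.card := by
      have a1 := le_card_sdiff B C
      have a2 := le_card_sdiff S Z0
      rw [← hC] at a2
      omega
    have e2 : z ≤ ((C \ B).card : ℝ) + S.card + B.card := by
      rw [hz]; exact_mod_cast e1
    have e3 : (S.card : ℝ) ≤ t := by exact_mod_cast (hSi ▸ hi.le)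
    have e4 : (B.card : ℝ) < t / δ := by
      rw [lt_div_iff₀ hδ0]; linarith
    have e5 : 2 * ((t : ℝ) / δ) ≤ z := by
      rw [← mul_div_assoc, div_le_iff₀ hδ0]; linarith
    have e6 : (t : ℝ) ≤ t / δ := by
      rw [le_div_iff₀ hδ0]; nlinarith
    have e7 : (0 : ℝ) < (C \ B).card := by linarith
    exact_mod_cast e7
  have hpw : z ^ (t - (i + 1)) * z ^ i = z ^ (t - 1) := by
    rw [← pow_add]; congr 1; omega
  -- find a good vertex
  have hex : ∃ a ∈ C \ B, P ≤ (∑ y ∈ cn r2 (insert a S) Y, m y ^ (t - (i + 1))) * z ^ (i + 1)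
      + ((i + 1 : ℕ) : ℝ) * E := by
    by_contra hcon
    push Not at hcon
    have f1 : (∑ a ∈ C \ B, ∑ y ∈ cn r2 (insert a S) Y, m y ^ (t - (i + 1))) * z ^ (i + 1)
        < ((C \ B).card : ℝ) * (P - ((i + 1 : ℕ) : ℝ) * E) := by
      rw [sum_mul, ← nsmul_eq_mul, ← sum_const]
      apply sum_lt_sum_of_nonempty hne
      intro a ha
      have := hcon a ha
      linarith
    have f0 : 0 ≤ (∑ a ∈ C \ B, ∑ y ∈ cn r2 (insert a S) Y, m y ^ (t - (i + 1))) * z ^ (i + 1) := by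
      apply mul_nonneg _ (by positivity)
      apply sum_nonneg
      intro a _
      apply sum_nonneg
      intro y _
      exact pow_nonneg (hm0 y) _
    have f2 : 0 < P - ((i + 1 : ℕ) : ℝ) * E := by
      by_contra hc
      push Not at hc
      have : ((C \ B).card : ℝ) * (P - ((i + 1 : ℕ) : ℝ) * E) ≤ 0 :=
        mul_nonpos_of_nonneg_of_nonpos (by positivity) hc
      linarith
    have f3 : ((C \ B).card : ℝ) ≤ z := by
      rw [hz]
      have : C \ B ⊆ Z0 := sdiff_subset.trans sdiff_subset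
      exact_mod_cast card_le_card this
    have f4 : (∑ a ∈ C \ B, ∑ y ∈ cn r2 (insert a S) Y, m y ^ (t - (i + 1))) * z ^ (i + 1)
        < z * (P - ((i + 1 : ℕ) : ℝ) * E) :=
      lt_of_lt_of_le f1 (mul_le_mul_of_nonneg_right f3 f2.le)
    have f5 : (∑ a ∈ C \ B, ∑ y ∈ cn r2 (insert a S) Y, m y ^ (t - (i + 1))) * z ^ i
        < P - ((i + 1 : ℕ) : ℝ) * E := by
      have : (∑ a ∈ C \ B, ∑ y ∈ cn r2 (insert a S) Y, m y ^ (t - (i + 1))) * z ^ (i + 1)
          = z * ((∑ a ∈ C \ B, ∑ y ∈ cn r2 (insert a S) Y, m y ^ (t - (i + 1))) * z ^ i) := by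
        rw [pow_succ]; ring
      rw [this] at f4
      exact lt_of_mul_lt_mul_left f4 hz0.le
    have f6 : ∑ y ∈ cn r2 S Y, m y ^ (t - i)
        ≤ (∑ a ∈ C \ B, ∑ y ∈ cn r2 (insert a S) Y, m y ^ (t - (i + 1)))
          + (t : ℝ) / δ * Y.card * z ^ (t - (i + 1)) := by
      linarith
    have f7 : (∑ y ∈ cn r2 S Y, m y ^ (t - i)) * z ^ i
        ≤ (∑ a ∈ C \ B, ∑ y ∈ cn r2 (insert a S) Y, m y ^ (t - (i + 1))) * z ^ i + E := by
      have := mul_le_mul_of_nonneg_right f6 (show (0 : ℝ) ≤ z ^ i by positivity)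
      refine le_trans this ?_
      rw [add_mul, hE]
      have : (t : ℝ) / δ * Y.card * z ^ (t - (i + 1)) * z ^ i
          = (t : ℝ) / δ * Y.card * z ^ (t - 1) := by
        rw [mul_assoc, hpw]
      rw [this]
    push_cast at f5
    linarith
  obtain ⟨a, ha, haP⟩ := hex
  rw [mem_sdiff, hC, mem_sdiff] at ha
  refine ⟨insert a S, ?_, ?_, ?_, haP⟩
  · intro b hb
    rw [mem_insert] at hb
    rcases hb with rfl | hb
    · exact ha.1.1
    · exact hS hb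
  · rw [card_insert_of_notMem ha.1.2, hSi]
  · have g1 := hBg a ha.1.1 ha.2
    have g2 : cn (fun a b => ¬ r1 a b) (insert a S) X = cn (fun a b => ¬ r1 a b) {a} XS := by
      ext x
      simp only [hXS, mem_cn, mem_insert, forall_eq_or_imp, mem_singleton, forall_eq]
      tauto
    rw [g2, pow_succ]
    have g3 : (X.card : ℝ) ≤ XS.card * 2 ^ i := hSX
    have g4 : (0 : ℝ) < 2 ^ i := by positivity
    have g5 : (1 - 1 / 2) * (XS.card : ℝ) * (2 ^ i * 2)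
        ≤ ((cn (fun a b => ¬ r1 a b) {a} XS).card : ℝ) * (2 ^ i * 2) :=
      mul_le_mul_of_nonneg_right g1 (by positivity)
    linarith

/-- The unbalanced step. -/
lemma stepG {t : ℕ} (r1 : α → β → Prop) (r2 : α → γ → Prop) (r3 : β → γ → Prop)
    (Z : Finset α) (X : Finset β) (Y : Finset γ)
    (h1 : NoK2 t r1 Z X) (h2 : NoK2 t r2 Z Y) (h3 : NoK2 t r3 X Y)
    (h4 : ∀ S ⊆ Z, ∀ S1 ⊆ X, ∀ S2 ⊆ Y, S.card = t → S1.card = t → S2.card = t →
      ¬ ((∀ a ∈ S, ∀ b ∈ S1, ¬ r1 a b) ∧ (∀ a ∈ S, ∀ c ∈ S2, ¬ r2 a c) ∧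
        (∀ b ∈ S1, ∀ c ∈ S2, ¬ r3 b c)))
    (δ ρ : ℝ) (hδ0 : 0 < δ) (hδ : δ ≤ 1 / 2) (ht0 : 0 < t)
    (hXbig : (t : ℝ) ≤ X.card * (1 / 2) ^ t * (1 / 2 - δ) ^ t)
    (hZ : 4 * (t : ℝ) ≤ δ * Z.card) (hρ1 : δ ≤ ρ) (hρ2 : ρ + δ ≤ 1)
    (hY : (t : ℝ) ≤ Y.card * (ρ - δ) ^ t)
    (hfin : 2 * (t : ℝ) / δ + 2 * (t : ℝ) ^ 2 / δ * Y.card / Z.card
      ≤ Y.card * (1 - ρ - δ) ^ t) : False := by
  classical
  obtain ⟨B2, hB2, hB2c, hB2g⟩ := exists_good_subset h2 ρ δ (by linarith) hρ1 hY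
  set Z0 := Z \ B2 with hZ0
  have htr : (0 : ℝ) < t := by exact_mod_cast ht0
  have hZ0c : (Z.card : ℝ) ≤ Z0.card + B2.card := by
    have ha : Z.card ≤ Z0.card + B2.card := by
      have := le_card_sdiff B2 Z
      rw [hZ0]
      omega
    exact_mod_cast ha
  have hZ0half : (Z.card : ℝ) / 2 ≤ Z0.card := by
    have : δ * (Z.card : ℝ) ≤ δ * Z0.card + δ * B2.card := by
      rw [← mul_add]; exact mul_le_mul_of_nonneg_left hZ0c hδ0.le
    have h5 : δ * ((Z.card : ℝ) / 2) ≤ δ * Z0.card := by linarith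
    exact le_of_mul_le_mul_left h5 hδ0
  have hZ0t : 2 * (t : ℝ) ≤ δ * Z0.card := by
    have := mul_le_mul_of_nonneg_left hZ0half hδ0.le
    linarith
  set m : γ → ℝ := fun y => max ((dg (fun a c => ¬ r2 a c) Z0 y : ℝ) - t) 0 with hm
  have hm0 : ∀ y, 0 ≤ m y := fun y => le_max_right _ _
  have hm1 : ∀ y, m y ≤ Z0.card := by
    intro y
    apply max_le _ (by positivity)
    have : (dg (fun a c => ¬ r2 a c) Z0 y : ℝ) ≤ Z0.card := by
      exact_mod_cast dg_le (fun a c => ¬ r2 a c) Z0 y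
    linarith
  have hm2 : ∀ y, m y ≤ (dg (fun a c => ¬ r2 a c) Z0 y : ℝ) - t ∨ m y = 0 := by
    intro y
    rcases max_choice ((dg (fun a c => ¬ r2 a c) Z0 y : ℝ) - t) 0 with h | h
    · left; simp only [hm]; rw [h]
    · right; simp only [hm]; rw [h]
  set P : ℝ := ∑ y ∈ Y, m y ^ t with hP
  set E : ℝ := (t : ℝ) / δ * Y.card * (Z0.card : ℝ) ^ (t - 1) with hE
  have hno : NoK2 t r1 Z0 X := h1.mono sdiff_subset (Subset.refl _)
  have hind : ∀ i ≤ t, ∃ S ⊆ Z0, S.card = i ∧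
      (X.card : ℝ) ≤ ((cn (fun a b => ¬ r1 a b) S X).card : ℝ) * 2 ^ i ∧
      P ≤ (∑ y ∈ cn (fun a c => ¬ r2 a c) S Y, m y ^ (t - i)) * (Z0.card : ℝ) ^ i + i * E := by
    intro i
    induction i with
    | zero =>
      intro _
      refine ⟨∅, empty_subset _, rfl, ?_, ?_⟩
      · have : cn (fun a b => ¬ r1 a b) ∅ X = X := by
          ext x; simp [mem_cn]
        rw [this]; simp
      · have : cn (fun a c => ¬ r2 a c) ∅ Y = Y := by
          ext x; simp [mem_cn]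
        rw [this]; simp [hP]
    | succ i ih =>
      intro hi
      obtain ⟨S, hS, hSi, hSX, hSP⟩ := ih (by omega)
      exact greedy_step r1 (fun a c => ¬ r2 a c) Z0 X Y hno δ hδ0 hδ hXbig hZ0t m hm0 hm1 hm2
        i (by omega) S hS hSi hSX P E hE hSP
  obtain ⟨S, hS, hSt, hSX, hSP⟩ := hind t le_rfl
  set XS := cn (fun a b => ¬ r1 a b) S X with hXS
  set YS := cn (fun a c => ¬ r2 a c) S Y with hYS
  have hSZ : S ⊆ Z := hS.trans sdiff_subset
  have hz0 : (0 : ℝ) < Z0.card := by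
    by_contra hcon
    push Not at hcon
    nlinarith
  -- lower bound for P
  have hPlow : (Y.card : ℝ) * ((1 - ρ - δ) * Z0.card) ^ t ≤ P := by
    apply jensen Y m (fun y _ => hm0 y) _ (mul_nonneg (by linarith) hz0.le)
    have e1 : ∑ y ∈ Y, ((dg (fun a c => ¬ r2 a c) Z0 y : ℝ) - t) ≤ ∑ y ∈ Y, m y :=
      sum_le_sum (fun y _ => le_max_left _ _)
    refine le_trans ?_ e1
    rw [sum_sub_distrib, sum_const, nsmul_eq_mul]
    have e2 : (∑ y ∈ Y, (dg (fun a c => ¬ r2 a c) Z0 y : ℝ))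
        = ∑ a ∈ Z0, ((cn (fun a c => ¬ r2 a c) {a} Y).card : ℝ) := by
      exact_mod_cast (sum_dg (fun a c => ¬ r2 a c) Z0 Y).symm
    rw [e2]
    have e3 : (Z0.card : ℝ) * ((1 - ρ) * Y.card)
        ≤ ∑ a ∈ Z0, ((cn (fun a c => ¬ r2 a c) {a} Y).card : ℝ) := by
      rw [← nsmul_eq_mul, ← sum_const]
      apply sum_le_sum
      intro a ha
      rw [hZ0, mem_sdiff] at ha
      exact hB2g a ha.1 ha.2
    have e4 : (0 : ℝ) ≤ Y.card := by positivity
    have e5 : (t : ℝ) * Y.card ≤ δ * Z0.card * Y.card := by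
      apply mul_le_mul_of_nonneg_right _ e4
      linarith
    nlinarith
  have hYScard : 2 * (t : ℝ) / δ ≤ YS.card := by
    have e1 : (∑ y ∈ YS, m y ^ (t - t)) = YS.card := by simp
    rw [e1] at hSP
    have e2 : (Y.card : ℝ) * (1 - ρ - δ) ^ t * (Z0.card : ℝ) ^ t
        ≤ YS.card * (Z0.card : ℝ) ^ t + t * E := by
      rw [mul_pow, ← mul_assoc] at hPlow
      linarith
    have e3 : (t : ℝ) * E ≤ (2 * (t : ℝ) ^ 2 / δ * Y.card / Z.card) * (Z0.card : ℝ) ^ t := by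
      have f1 : (Z0.card : ℝ) ^ t = (Z0.card : ℝ) ^ (t - 1) * Z0.card := by
        rw [← pow_succ]; congr 1; omega
      rw [f1, hE]
      have hZpos : (0 : ℝ) < Z.card := by
        have : (0 : ℝ) < 4 * t := by linarith
        by_contra hcon
        push Not at hcon
        nlinarith
      have f2 : (1 : ℝ) ≤ 2 * Z0.card / Z.card := by
        rw [le_div_iff₀ hZpos]; linarith
      have f3 : (0 : ℝ) ≤ (t : ℝ) ^ 2 / δ * Y.card * (Z0.card : ℝ) ^ (t - 1) := by positivity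
      calc (t : ℝ) * (t / δ * Y.card * (Z0.card : ℝ) ^ (t - 1))
          = ((t : ℝ) ^ 2 / δ * Y.card * (Z0.card : ℝ) ^ (t - 1)) * 1 := by ring
        _ ≤ ((t : ℝ) ^ 2 / δ * Y.card * (Z0.card : ℝ) ^ (t - 1)) * (2 * Z0.card / Z.card) :=
            mul_le_mul_of_nonneg_left f2 f3
        _ = _ := by ring
    have e4 : (2 * (t : ℝ) / δ) * (Z0.card : ℝ) ^ t ≤ YS.card * (Z0.card : ℝ) ^ t := by
      have f4 := mul_le_mul_of_nonneg_right hfin (show (0 : ℝ) ≤ (Z0.card : ℝ) ^ t by positivity)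
      rw [add_mul] at f4
      linarith
    exact le_of_mul_le_mul_right e4 (by positivity)
  have hXY1 : NoK2 t r3 XS YS := h3.mono (cn_subset _ _ _) (cn_subset _ _ _)
  have hXY2 : NoK2 t (fun b c => ¬ r3 b c) XS YS := by
    intro S1 hS1 S2 hS2 hS1t hS2t hcon
    refine h4 S hSZ S1 (hS1.trans (cn_subset _ _ _)) S2 (hS2.trans (cn_subset _ _ _)) hSt hS1t
      hS2t ⟨?_, ?_, hcon⟩
    · intro a ha b hb
      exact (mem_cn.1 (hS1 hb)).2 a ha
    · intro a ha c hc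
      exact (mem_cn.1 (hS2 hc)).2 a ha
  refine final_step hXY1.swap hXY2.swap δ hδ0 hδ ?_ ?_
  · rw [div_le_iff₀ hδ0] at hYScard
    linarith
  · have hhalf : (0 : ℝ) ≤ 1 / 2 - δ := by linarith
    have e1 : (X.card : ℝ) * (1 / 2) ^ t ≤ XS.card := by
      have e2 : (X.card : ℝ) * (1 / 2) ^ t ≤ (XS.card * 2 ^ t) * (1 / 2) ^ t :=
        mul_le_mul_of_nonneg_right hSX (by positivity)
      have e4 : ((XS.card : ℝ) * 2 ^ t) * (1 / 2) ^ t = XS.card := by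
        rw [mul_assoc, ← mul_pow]; norm_num
      linarith
    exact le_trans hXbig (mul_le_mul_of_nonneg_right e1 (by positivity))

end Pool.Agent.Lib.MP_fce458_co
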