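import Mathlib
import Pool.Agent.Lib.MP_fce458_co.Stage2

open Finset

namespace Pool.Agent.Lib.MP_fce458_co

variable {α β γ : Type*}

/-- The polynomial inequality behind the balanced case. -/
lemma poly_P (κ c1 c2 : ℝ) (hκ : 3 ≤ κ) (h12 : c2 ≤ c1) (h2 : 12 / 5 ≤ c2)
    (h : κ ^ 3 ≤ c1 * c2 ^ 2) : (κ - 1) ^ 2 ≤ (c1 - 1) * (c2 - 1) := by
  rcases le_total κ c2 with hc | hc
  · nlinarith [mul_nonneg (sub_nonneg.2 hc) (sub_nonneg.2 (hc.trans h12))]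
  · have hpos : 0 < c2 ^ 2 := by positivity
    have key : (κ - 1) ^ 2 * c2 ^ 2 ≤ (c1 - 1) * (c2 - 1) * c2 ^ 2 := by
      have e1 : (κ ^ 3 - c2 ^ 2) * (c2 - 1) ≤ (c1 * c2 ^ 2 - c2 ^ 2) * (c2 - 1) := by
        apply mul_le_mul_of_nonneg_right _ (by linarith)
        linarith
      have e2 : (κ - 1) ^ 2 * c2 ^ 2 ≤ (κ ^ 3 - c2 ^ 2) * (c2 - 1) := by
        have e3 : (κ ^ 3 - c2 ^ 2) * (c2 - 1) - (κ - 1) ^ 2 * c2 ^ 2
            = (κ - c2) * (c2 ^ 2 + (κ ^ 2 - κ) * c2 - κ ^ 2) := by ring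
        have e4 : 0 ≤ c2 ^ 2 + (κ ^ 2 - κ) * c2 - κ ^ 2 := by
          have f1 : (κ ^ 2 - κ) * (12 / 5) ≤ (κ ^ 2 - κ) * c2 := by
            apply mul_le_mul_of_nonneg_left h2
            nlinarith
          nlinarith
        have e5 := mul_nonneg (sub_nonneg.2 hc) e4
        linarith
      nlinarith
    exact le_of_mul_le_mul_right key hpos

lemma poly_P2 (c1 c2 : ℝ) (h12 : c2 ≤ c1) (h2 : 12 / 5 ≤ c2)
    (h : 27 ≤ c1 * c2 ^ 2) : c1 + 2 / 5 ≤ (c1 - 1) * (c2 - 1) := by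
  rcases le_total 3 c2 with hc | hc
  · nlinarith
  · have hpos : 0 < c2 ^ 2 := by positivity
    have key : (c1 + 2 / 5) * c2 ^ 2 ≤ (c1 - 1) * (c2 - 1) * c2 ^ 2 := by
      -- c1 (c2 - 2) c2^2 ≥ 27 (c2 - 2)
      have e1 : 27 * (c2 - 2) ≤ c1 * c2 ^ 2 * (c2 - 2) :=
        mul_le_mul_of_nonneg_right h (by linarith)
      have e2 : (c2 - 1 + 2 / 5) * c2 ^ 2 ≤ 27 * (c2 - 2) := by
        nlinarith [mul_nonneg (sub_nonneg.2 hc) (sub_nonneg.2 h2),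
          mul_nonneg (mul_nonneg (sub_nonneg.2 hc) (sub_nonneg.2 h2)) (show (0:ℝ) ≤ c2 by linarith)]
      nlinarith
    exact le_of_mul_le_mul_right key hpos

lemma q_low (c1 c2 δ : ℝ) (hδ0 : 0 ≤ δ) (h1 : 1 ≤ c1) (h2 : 1 ≤ c2) (hc1 : c1 ≤ 61 / 10)
    (hc2 : c2 ≤ 61 / 10) :
    (c1 - 1) * (c2 - 1) - 150 * δ
      ≤ ((c1 - 1) - δ * (c1 + 1)) * ((c2 - 1) - δ * (c2 + 1)) - δ * (c1 * c2) := by
  have e3 : c1 * c2 ≤ 61 / 10 * (61 / 10) := mul_le_mul hc1 hc2 (by linarith) (by norm_num)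
  have e1 : (c1 - 1) * (c2 + 1) ≤ 51 / 10 * (71 / 10) :=
    mul_le_mul (by linarith) (by linarith) (by linarith) (by norm_num)
  have e2 : (c2 - 1) * (c1 + 1) ≤ 51 / 10 * (71 / 10) :=
    mul_le_mul (by linarith) (by linarith) (by linarith) (by norm_num)
  have f1 : δ * ((c1 - 1) * (c2 + 1)) ≤ δ * (51 / 10 * (71 / 10)) :=
    mul_le_mul_of_nonneg_left e1 hδ0
  have f2 : δ * ((c2 - 1) * (c1 + 1)) ≤ δ * (51 / 10 * (71 / 10)) :=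
    mul_le_mul_of_nonneg_left e2 hδ0
  have f3 : δ * (c1 * c2) ≤ δ * (61 / 10 * (61 / 10)) := mul_le_mul_of_nonneg_left e3 hδ0
  have f4 : 0 ≤ δ ^ 2 * ((c1 + 1) * (c2 + 1)) := by
    apply mul_nonneg (by positivity)
    apply mul_nonneg <;> linarith
  have key : ((c1 - 1) - δ * (c1 + 1)) * ((c2 - 1) - δ * (c2 + 1)) - δ * (c1 * c2)
      = (c1 - 1) * (c2 - 1) - δ * ((c1 - 1) * (c2 + 1)) - δ * ((c2 - 1) * (c1 + 1))
        + δ ^ 2 * ((c1 + 1) * (c2 + 1)) - δ * (c1 * c2) := by ring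
  rw [key]
  linarith

lemma hh_ineq (δ : ℝ) (hδ0 : 0 ≤ δ) (hδ1 : δ ≤ 1 / 20000) :
    1 + δ ≤ (2 + 8 * δ) * (1 / 2 - δ) ∧ (2 + 8 * δ) ^ 2 ≤ 4 + 40 * δ := by
  constructor <;> nlinarith

lemma eps_ineq (κ ε : ℝ) (hκ : κ = 3 + ε / 4) (hε : 0 ≤ ε) : 4 + ε ≤ (κ - 1) ^ 2 := by
  rw [hκ]; nlinarith

lemma c1_ge (c1 c2 : ℝ) (h1 : 0 < c1) (h2 : 0 < c2) (hcase : c2 ≤ 12 / 5)
    (h : 27 ≤ c1 * c2 ^ 2) : 46 / 10 ≤ c1 := by
  by_contra hcon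
  push Not at hcon
  have e1 : c2 ^ 2 ≤ (12 / 5) ^ 2 := pow_le_pow_left₀ h2.le hcase 2
  have e2 : c1 * c2 ^ 2 ≤ c1 * (12 / 5) ^ 2 := mul_le_mul_of_nonneg_left e1 h1.le
  linarith

lemma c2_ge (c1 c2 : ℝ) (h2 : 0 < c2) (hc1 : c1 ≤ 61 / 10)
    (h : 27 ≤ c1 * c2 ^ 2) : 21 / 10 ≤ c2 := by
  by_contra hcon
  push Not at hcon
  have e1 : c2 ^ 2 ≤ (21 / 10) ^ 2 := pow_le_pow_left₀ h2.le hcon.le 2
  have e2 : c1 * c2 ^ 2 ≤ 61 / 10 * (21 / 10) ^ 2 :=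
    mul_le_mul hc1 e1 (by positivity) (by norm_num)
  linarith

lemma ratio_ineq (c1 c2 c3 δ : ℝ) (hδ0 : 0 ≤ δ) (hδ1 : δ ≤ 1 / 20000) (h2 : 0 < c2)
    (h3 : 0 < c3) (hc1 : c1 ≤ 61 / 10) (hlo : 21 / 10 ≤ c2) (hhi : c2 ≤ 12 / 5)
    (h : 27 ≤ c1 * c2 * c3) :
    (1 + δ) * (c2 / c3) ≤ c2 - 1 - 6 * δ := by
  have e1 : c2 / c3 ≤ 61 / 270 * c2 ^ 2 := by
    rw [div_le_iff₀ h3]
    have e3 : c1 * c2 * c3 ≤ 61 / 10 * (c2 * c3) := by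
      have : c1 * (c2 * c3) ≤ 61 / 10 * (c2 * c3) :=
        mul_le_mul_of_nonneg_right hc1 (by positivity)
      linarith
    have e4 : 27 * c2 ≤ 61 / 10 * (c2 * c3) * c2 :=
      mul_le_mul_of_nonneg_right (h.trans e3) h2.le
    nlinarith
  have e5 : 61 / 270 * c2 ^ 2 ≤ c2 - 1 - 9 / 100 := by nlinarith
  have e6 : (1 + δ) * (c2 / c3) ≤ (1 + δ) * (c2 - 1 - 9 / 100) :=
    mul_le_mul_of_nonneg_left (e1.trans e5) (by linarith)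
  nlinarith

lemma fin_ineq (t : ℕ) (δ b g : ℝ) (hδ0 : 0 < δ) (htr : (1 : ℝ) ≤ t) (hb : 1 ≤ b)
    (hg : (1 + δ) * b ≤ g) (ht : 4 * (t : ℝ) ^ 2 ≤ δ * (1 + δ) ^ t) :
    2 * (t : ℝ) / δ + 2 * (t : ℝ) ^ 2 / δ * b ^ t ≤ g ^ t := by
  have h6 : ((1 + δ) * b) ^ t ≤ g ^ t := pow_le_pow_left₀ (by positivity) hg t
  refine le_trans ?_ h6
  rw [mul_pow]
  have h7 : 4 * (t : ℝ) ^ 2 / δ ≤ (1 + δ) ^ t := by
    rw [div_le_iff₀ hδ0]; linarith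
  have h8 : (1 : ℝ) ≤ b ^ t := one_le_pow₀ hb
  have h9 : 2 * (t : ℝ) / δ ≤ 2 * (t : ℝ) ^ 2 / δ := by
    apply div_le_div_of_nonneg_right _ hδ0.le
    nlinarith
  have h10 : (0 : ℝ) ≤ 2 * (t : ℝ) ^ 2 / δ := by positivity
  have h11 : 4 * (t : ℝ) ^ 2 / δ = 2 * (t : ℝ) ^ 2 / δ + 2 * (t : ℝ) ^ 2 / δ := by ring
  calc 2 * (t : ℝ) / δ + 2 * (t : ℝ) ^ 2 / δ * b ^ t
      ≤ 2 * (t : ℝ) ^ 2 / δ * b ^ t + 2 * (t : ℝ) ^ 2 / δ * b ^ t := by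
        have := mul_le_mul_of_nonneg_left h8 h10
        linarith
    _ = 4 * (t : ℝ) ^ 2 / δ * b ^ t := by rw [h11]; ring
    _ ≤ (1 + δ) ^ t * b ^ t := mul_le_mul_of_nonneg_right h7 (by positivity)

/-- Stage 2, for sets sorted by size. -/
lemma stage2_sorted {t : ℕ} (r1 : α → β → Prop) (r2 : α → γ → Prop) (r3 : β → γ → Prop)
    (Z : Finset α) (X : Finset β) (Y : Finset γ)
    (h1 : NoK2 t r1 Z X) (h2 : NoK2 t r2 Z Y) (h3 : NoK2 t r3 X Y)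
    (h4 : ∀ S ⊆ Z, ∀ S1 ⊆ X, ∀ S2 ⊆ Y, S.card = t → S1.card = t → S2.card = t →
      ¬ ((∀ a ∈ S, ∀ b ∈ S1, ¬ r1 a b) ∧ (∀ a ∈ S, ∀ c ∈ S2, ¬ r2 a c) ∧
        (∀ b ∈ S1, ∀ c ∈ S2, ¬ r3 b c)))
    (ε δ c1 c2 c3 : ℝ) (hε0 : 0 < ε) (hε1 : ε ≤ 1 / 20) (hδ0 : 0 < δ) (hδ : 1000 * δ ≤ ε)
    (ht0 : 0 < t)
    (hX : (X.card : ℝ) = c1 ^ t) (hY : (Y.card : ℝ) = c2 ^ t) (hZ : (Z.card : ℝ) = c3 ^ t)
    (ht : 4 * (t : ℝ) ^ 2 ≤ δ * (1 + δ) ^ t)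
    (h12 : c2 ≤ c1) (h23 : c3 ≤ c2) (hc3 : 1 + δ ≤ c3) (hc1 : c1 ≤ 61 / 10)
    (hprod : (3 + ε / 4) ^ 3 ≤ c1 * c2 * c3) : False := by
  have hδ1 : δ ≤ 1 / 20000 := by linarith
  have htr : (1 : ℝ) ≤ t := by exact_mod_cast ht0
  have ht2 : 4 * (t : ℝ) ≤ δ * (1 + δ) ^ t := by nlinarith
  have ht1 : (t : ℝ) ≤ (1 + δ) ^ t := by
    have : 0 < (1 + δ) ^ t := by positivity
    nlinarith
  have hc2pos : 0 < c2 := by linarith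
  have hc1pos : 0 < c1 := by linarith
  have hc3pos : 0 < c3 := by linarith
  have hsq : (3 + ε / 4) ^ 3 ≤ c1 * c2 ^ 2 := by
    have : c1 * c2 * c3 ≤ c1 * c2 * c2 := mul_le_mul_of_nonneg_left h23 (by positivity)
    nlinarith
  have h27 : (27 : ℝ) ≤ (3 + ε / 4) ^ 3 := by
    have : (3 : ℝ) ^ 3 ≤ (3 + ε / 4) ^ 3 := pow_le_pow_left₀ (by norm_num) (by linarith) 3
    linarith
  rcases le_total (12 / 5) c2 with hcase | hcase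
  · -- balanced
    have q0 := poly_P (3 + ε / 4) c1 c2 (by linarith) h12 hcase hsq
    have q1 := poly_P2 c1 c2 h12 hcase (h27.trans hsq)
    set q := c1 * c2 * ((1 - ((1 + δ) / c1 + δ)) * (1 - ((1 + δ) / c2 + δ)) - δ) with hq
    have hqe : q = ((c1 - 1) - δ * (c1 + 1)) * ((c2 - 1) - δ * (c2 + 1)) - δ * (c1 * c2) := by
      rw [hq]; field_simp; ring
    have hqlow : (c1 - 1) * (c2 - 1) - 150 * δ ≤ q := by
      rw [hqe]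
      exact q_low c1 c2 δ hδ0.le (by linarith) (by linarith) hc1 (h12.trans hc1)
    have hee := eps_ineq (3 + ε / 4) ε rfl hε0.le
    have hq4 : 4 + ε - 150 * δ ≤ q := by linarith
    obtain ⟨hh1, hh2⟩ := hh_ineq δ hδ0.le hδ1
    have hδc1 : δ * c1 ≤ δ * (61 / 10) := mul_le_mul_of_nonneg_left hc1 hδ0.le
    have hδc2 : δ * c2 ≤ δ * (61 / 10) := mul_le_mul_of_nonneg_left (h12.trans hc1) hδ0.le
    have hqpos : 0 < q := by linarith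
    refine stepP r1 r2 r3 Z X Y h1 h2 h3 h4 δ c1 c2 q (2 + 8 * δ) hδ0 (by linarith) hc1pos hc2pos
      hX hY ht1 ht2 ?_ ?_ ?_ hqpos le_rfl ?_ ?_ (by linarith) ?_ ?_
    · rw [hZ]; exact pow_le_pow_left₀ (by linarith) hc3 t
    · have : (1 + δ) / c2 ≤ 1 / 2 := by
        rw [div_le_iff₀ hc2pos]; linarith
      linarith
    · by_contra hcon
      push Not at hcon
      have : q ≤ 0 := by
        rw [hq]
        apply mul_nonpos_of_nonneg_of_nonpos (by positivity)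
        linarith
      linarith
    · linarith
    · linarith
    · exact hh1
    · linarith
  · -- unbalanced
    have hc12 : 27 ≤ c1 * c2 ^ 2 := h27.trans hsq
    have hc1' := c1_ge c1 c2 hc1pos hc2pos hcase hc12
    have hc2' := c2_ge c1 c2 hc2pos hc1 hc12
    have hb := ratio_ineq c1 c2 c3 δ hδ0.le hδ1 hc2pos hc3pos hc1 hc2' hcase (h27.trans hprod)
    set ρ := (1 + δ) / c2 + δ with hρ
    have hρle : (1 + δ) / c2 ≤ 1 / 2 := by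
      rw [div_le_iff₀ hc2pos]; linarith
    refine stepG r1 r2 r3 Z X Y h1 h2 h3 h4 δ ρ hδ0 (by linarith) ht0 ?_ ?_ ?_ ?_ ?_ ?_
    · rw [hX, ← mul_pow, ← mul_pow]
      refine le_trans ht1 (pow_le_pow_left₀ (by linarith) ?_ t)
      have e1 : 46 / 10 * (1 / 2) * (1 / 2 - δ) ≤ c1 * (1 / 2) * (1 / 2 - δ) := by
        apply mul_le_mul_of_nonneg_right _ (by linarith)
        linarith
      linarith
    · rw [hZ]
      have : (1 + δ) ^ t ≤ c3 ^ t := pow_le_pow_left₀ (by linarith) hc3 t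
      exact ht2.trans (mul_le_mul_of_nonneg_left this hδ0.le)
    · have : 0 ≤ (1 + δ) / c2 := by positivity
      linarith
    · linarith
    · rw [hY, ← mul_pow]
      have : c2 * (ρ - δ) = 1 + δ := by rw [hρ]; field_simp; ring
      rw [this]; exact ht1
    · have hg : c2 * (1 - ρ - δ) = c2 - 1 - δ - 2 * δ * c2 := by
        rw [hρ]; field_simp; ring
      have hg2 : (1 + δ) * (c2 / c3) ≤ c2 * (1 - ρ - δ) := by
        rw [hg]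
        have : δ * c2 ≤ δ * (12 / 5) := mul_le_mul_of_nonneg_left hcase hδ0.le
        linarith
      have hyz : (Y.card : ℝ) / Z.card = (c2 / c3) ^ t := by rw [hY, hZ, div_pow]
      have h5 : 2 * (t : ℝ) ^ 2 / δ * Y.card / Z.card = 2 * (t : ℝ) ^ 2 / δ * (c2 / c3) ^ t := by
        rw [mul_div_assoc, hyz]
      rw [h5, hY, ← mul_pow]
      exact fin_ineq t δ (c2 / c3) _ hδ0 htr (by rw [le_div_iff₀ hc3pos]; linarith) hg2 ht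

end Pool.Agent.Lib.MP_fce458_co
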