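import Mathlib
import Pool.Agent.Lib.MP_fce458_co.Numeric

open Finset

namespace Pool.Agent.Lib.MP_fce458_co

variable {α β γ η : Type*}

/-- Stage 2 when two of the sets are large. -/
lemma stage2_big {t : ℕ} (r1 : α → β → Prop) (r2 : α → γ → Prop) (r3 : β → γ → Prop)
    (Z : Finset α) (X : Finset β) (Y : Finset γ)
    (h1 : NoK2 t r1 Z X) (h2 : NoK2 t r2 Z Y) (h3 : NoK2 t r3 X Y)
    (h4 : ∀ S ⊆ Z, ∀ S1 ⊆ X, ∀ S2 ⊆ Y, S.card = t → S1.card = t → S2.card = t →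
      ¬ ((∀ a ∈ S, ∀ b ∈ S1, ¬ r1 a b) ∧ (∀ a ∈ S, ∀ c ∈ S2, ¬ r2 a c) ∧
        (∀ b ∈ S1, ∀ c ∈ S2, ¬ r3 b c)))
    (δ c1 c2 : ℝ) (hδ0 : 0 < δ) (hδ1 : δ ≤ 1 / 20000)
    (ht0 : 0 < t)
    (hX : (X.card : ℝ) = c1 ^ t) (hY : (Y.card : ℝ) = c2 ^ t) (hZ : (1 + δ) ^ t ≤ (Z.card : ℝ))
    (ht : 4 * (t : ℝ) ^ 2 ≤ δ * (1 + δ) ^ t)
    (hc1pos : 0 < c1) (hc2pos : 0 < c2)
    (hc1 : c1 ≤ 61 / 10) (hc2 : c2 ≤ 61 / 10)
    (hprod : 20 ≤ c1 * c2) : False := by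
  have htr : (1 : ℝ) ≤ t := by exact_mod_cast ht0
  have ht2 : 4 * (t : ℝ) ≤ δ * (1 + δ) ^ t := by nlinarith
  have ht1 : (t : ℝ) ≤ (1 + δ) ^ t := by
    have : 0 < (1 + δ) ^ t := by positivity
    nlinarith
  have hc1' : 32 / 10 ≤ c1 := by nlinarith
  have hc2' : 32 / 10 ≤ c2 := by nlinarith
  have q0 : 11 ≤ (c1 - 1) * (c2 - 1) := by
    nlinarith [mul_nonneg (sub_nonneg.2 hc1) (sub_nonneg.2 hc2)]
  set q := c1 * c2 * ((1 - ((1 + δ) / c1 + δ)) * (1 - ((1 + δ) / c2 + δ)) - δ) with hq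
  have hqe : q = ((c1 - 1) - δ * (c1 + 1)) * ((c2 - 1) - δ * (c2 + 1)) - δ * (c1 * c2) := by
    rw [hq]; field_simp; ring
  have hqlow : (c1 - 1) * (c2 - 1) - 150 * δ ≤ q := by
    rw [hqe]
    exact q_low c1 c2 δ hδ0.le (by linarith) (by linarith) hc1 hc2
  obtain ⟨hh1, hh2⟩ := hh_ineq δ hδ0.le hδ1
  have hδc1 : δ * c1 ≤ δ * (61 / 10) := mul_le_mul_of_nonneg_left hc1 hδ0.le
  have hδc2 : δ * c2 ≤ δ * (61 / 10) := mul_le_mul_of_nonneg_left hc2 hδ0.le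
  have hqpos : 0 < q := by linarith
  refine stepP r1 r2 r3 Z X Y h1 h2 h3 h4 δ c1 c2 q (2 + 8 * δ) hδ0 (by linarith) hc1pos hc2pos
    hX hY ht1 ht2 hZ ?_ ?_ hqpos le_rfl ?_ ?_ (by linarith) ?_ ?_
  · have : (1 + δ) / c2 ≤ 1 / 2 := by
      rw [div_le_iff₀ hc2pos]; linarith
    linarith
  · by_contra hcon
    push Not at hcon
    have : q ≤ 0 := by
      rw [hq]
      apply mul_nonpos_of_nonneg_of_nonpos (by positivity)
      linarith
    linarith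
  · linarith
  · linarith
  · exact hh1
  · linarith

/-- From `t`-subsets to `2t`-subsets. -/
lemma pair_case (r : α → β → Prop) (A : Finset α) (W : Finset β) (t : ℕ) (δ G : ℝ)
    (hδ0 : 0 < δ) (hG : 0 ≤ G) (hA : 2 * t ≤ A.card)
    (hsum : G * (W.card : ℝ) * (A.card : ℝ) ^ t
      ≤ (t.factorial : ℝ) * ∑ S ∈ A.powersetCard t, ((cn r S W).card : ℝ))
    (hB : (2 * t * ((1 + δ) / δ)) ^ t ≤ G / 2 * (A.card : ℝ) ^ t) :
    ∃ T ⊆ A, T.card = 2 * t ∧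
      (W.card : ℝ) * (G / (2 * (1 + δ) ^ t)) ^ 2 ≤ ((cn r T W).card : ℝ) := by
  have h1 : (∑ S ∈ A.powersetCard t, ((cn r S W).card : ℝ))
      = ∑ w ∈ W, ((dg r A w).choose t : ℝ) := by
    exact_mod_cast sum_cn r A W t
  have h2 : (∑ T ∈ A.powersetCard (2 * t), ((cn r T W).card : ℝ))
      = ∑ w ∈ W, ((dg r A w).choose (2 * t) : ℝ) := by
    exact_mod_cast sum_cn r A W (2 * t)
  set y : β → ℝ := fun w => max ((dg r A w : ℝ) - ((2 * t : ℕ) : ℝ)) 0 with hy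
  have hy0 : ∀ w, 0 ≤ y w := fun w => le_max_right _ _
  -- pointwise comparison
  have hpt : ∀ w, (dg r A w : ℝ) ^ t ≤ (1 + δ) ^ t * y w ^ t + (2 * t * ((1 + δ) / δ)) ^ t := by
    intro w
    rcases le_total (2 * t * ((1 + δ) / δ)) (dg r A w : ℝ) with h | h
    · have e1 : (dg r A w : ℝ) ≤ (1 + δ) * y w := by
        have e2 : (dg r A w : ℝ) - ((2 * t : ℕ) : ℝ) ≤ y w := le_max_left _ _
        have e3 : 2 * (t : ℝ) * (1 + δ) ≤ δ * (dg r A w : ℝ) := by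
          have := mul_le_mul_of_nonneg_left h hδ0.le
          have e4 : δ * (2 * t * ((1 + δ) / δ)) = 2 * t * (1 + δ) := by field_simp
          linarith
        push_cast at e2
        nlinarith
      have e5 : (dg r A w : ℝ) ^ t ≤ ((1 + δ) * y w) ^ t :=
        pow_le_pow_left₀ (by positivity) e1 t
      rw [mul_pow] at e5
      have e6 : (0 : ℝ) ≤ (2 * t * ((1 + δ) / δ)) ^ t := by positivity
      linarith
    · have e5 : (dg r A w : ℝ) ^ t ≤ (2 * t * ((1 + δ) / δ)) ^ t :=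
        pow_le_pow_left₀ (by positivity) h t
      have e6 : (0 : ℝ) ≤ (1 + δ) ^ t * y w ^ t :=
        mul_nonneg (by positivity) (pow_nonneg (hy0 w) _)
      linarith
  have hd : (0 : ℝ) < (1 + δ) ^ t := by positivity
  have hsum1 : G * (W.card : ℝ) * (A.card : ℝ) ^ t ≤ ∑ w ∈ W, (dg r A w : ℝ) ^ t := by
    refine le_trans hsum ?_
    rw [h1, mul_sum]
    exact sum_le_sum (fun w _ => choose_le_pow_div' _ _)
  have hsum2 : ∑ w ∈ W, (dg r A w : ℝ) ^ t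
      ≤ (1 + δ) ^ t * ∑ w ∈ W, y w ^ t + W.card * (2 * t * ((1 + δ) / δ)) ^ t := by
    rw [mul_sum, ← nsmul_eq_mul, ← sum_const, ← sum_add_distrib]
    exact sum_le_sum (fun w _ => hpt w)
  have hsum3 : (G / (2 * (1 + δ) ^ t) * (A.card : ℝ) ^ t) * W.card ≤ ∑ w ∈ W, y w ^ t := by
    have e1 : (W.card : ℝ) * (2 * t * ((1 + δ) / δ)) ^ t
        ≤ W.card * (G / 2 * (A.card : ℝ) ^ t) :=
      mul_le_mul_of_nonneg_left hB (by positivity)
    have e2 : (G / 2 * (A.card : ℝ) ^ t) * W.card ≤ (1 + δ) ^ t * ∑ w ∈ W, y w ^ t := by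
      linarith
    have e3 : (G / (2 * (1 + δ) ^ t) * (A.card : ℝ) ^ t) * W.card
        = (G / 2 * (A.card : ℝ) ^ t) * W.card / (1 + δ) ^ t := by
      field_simp
    rw [e3, div_le_iff₀ hd]
    linarith
  have hj := jensen W (fun w => y w ^ t) (fun w _ => pow_nonneg (hy0 w) _)
    (G / (2 * (1 + δ) ^ t) * (A.card : ℝ) ^ t) (by positivity) hsum3 2
  have hfin : (W.card : ℝ) * (G / (2 * (1 + δ) ^ t)) ^ 2 * (A.card : ℝ) ^ (2 * t)
      ≤ ((2 * t).factorial : ℝ) * ∑ T ∈ A.powersetCard (2 * t), ((cn r T W).card : ℝ) := by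
    rw [h2, mul_sum]
    calc (W.card : ℝ) * (G / (2 * (1 + δ) ^ t)) ^ 2 * (A.card : ℝ) ^ (2 * t)
        = (W.card : ℝ) * (G / (2 * (1 + δ) ^ t) * (A.card : ℝ) ^ t) ^ 2 := by
          rw [mul_pow, ← pow_mul, mul_comm t 2]; ring
      _ ≤ ∑ w ∈ W, (y w ^ t) ^ 2 := hj
      _ ≤ ∑ w ∈ W, ((2 * t).factorial : ℝ) * ((dg r A w).choose (2 * t) : ℝ) := by
          apply sum_le_sum
          intro w _
          rw [← pow_mul, mul_comm t 2]
          exact sub_pow_le_choose _ _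
  obtain ⟨T, hT, hT2⟩ := exists_of_sum A (2 * t) (fun T => ((cn r T W).card : ℝ))
    ((W.card : ℝ) * (G / (2 * (1 + δ) ^ t)) ^ 2) hA (by positivity) hfin
  rw [mem_powersetCard] at hT
  exact ⟨T, hT.1, hT.2, hT2⟩

/-- Inside a `2t`-set all of whose members have density at least one half, some `t`-subset has
many common neighbours. -/
lemma sub_pigeon (r : α → γ → Prop) (T : Finset α) (Z : Finset γ) (t : ℕ) (hT : T.card = 2 * t)
    (hdeg : ∀ a ∈ T, 1 / 2 * (Z.card : ℝ) ≤ ((cn r {a} Z).card : ℝ)) :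
    ∃ S ⊆ T, S.card = t ∧ (Z.card : ℝ) ≤ (t + 1) * 4 ^ t * ((cn r S Z).card : ℝ) := by
  classical
  by_contra hcon
  push Not at hcon
  have h1 : (∑ S ∈ T.powersetCard t, (t + 1) * 4 ^ t * ((cn r S Z).card : ℝ))
      < ∑ S ∈ T.powersetCard t, (Z.card : ℝ) := by
    apply sum_lt_sum_of_nonempty (powersetCard_nonempty.2 (by omega))
    intro S hS
    rw [mem_powersetCard] at hS
    exact hcon S hS.1 hS.2
  rw [sum_const, card_powersetCard, nsmul_eq_mul, ← mul_sum, hT] at h1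
  have h2 : (∑ S ∈ T.powersetCard t, ((cn r S Z).card : ℝ))
      = ∑ w ∈ Z, ((dg r T w).choose t : ℝ) := by
    exact_mod_cast sum_cn r T Z t
  have h3 : (∑ a ∈ T, ((cn r {a} Z).card : ℝ)) = ∑ w ∈ Z, (dg r T w : ℝ) := by
    exact_mod_cast sum_dg r T Z
  have h4 : (t : ℝ) * Z.card ≤ ∑ w ∈ Z, (dg r T w : ℝ) := by
    rw [← h3]
    have := sum_le_sum hdeg
    rw [sum_const, nsmul_eq_mul, hT] at this
    push_cast at this
    linarith
  have h5 : ∀ w ∈ Z, (dg r T w : ℝ) ≤ ((t : ℝ) - 1) + (t + 1) * ((dg r T w).choose t : ℝ) := by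
    intro w _
    have hle : dg r T w ≤ 2 * t := hT ▸ dg_le r T w
    rcases lt_or_ge (dg r T w) t with h | h
    · have : (dg r T w : ℝ) + 1 ≤ t := by exact_mod_cast h
      have h0 : (0 : ℝ) ≤ (t + 1) * ((dg r T w).choose t : ℝ) := by positivity
      linarith
    · have hc : 1 ≤ (dg r T w).choose t := Nat.choose_pos h
      have hc' : (1 : ℝ) ≤ ((dg r T w).choose t : ℝ) := by exact_mod_cast hc
      have hle' : (dg r T w : ℝ) ≤ 2 * t := by exact_mod_cast hle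
      have : ((t : ℝ) + 1) * 1 ≤ (t + 1) * ((dg r T w).choose t : ℝ) :=
        mul_le_mul_of_nonneg_left hc' (by positivity)
      linarith
  have h6 := sum_le_sum h5
  rw [sum_add_distrib, sum_const, nsmul_eq_mul, ← mul_sum] at h6
  rw [h2] at h1
  set C := ∑ w ∈ Z, ((dg r T w).choose t : ℝ) with hC
  have h7 : (Z.card : ℝ) ≤ (t + 1) * C := by linarith
  have h8 : ((2 * t).choose t : ℝ) ≤ 4 ^ t := by
    have : (2 * t).choose t ≤ 2 ^ (2 * t) := Nat.choose_le_two_pow _ _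
    rw [pow_mul] at this
    exact_mod_cast this
  have h9 : ((2 * t).choose t : ℝ) * Z.card ≤ 4 ^ t * Z.card :=
    mul_le_mul_of_nonneg_right h8 (by positivity)
  have h10 : (4 : ℝ) ^ t * Z.card ≤ 4 ^ t * ((t + 1) * C) :=
    mul_le_mul_of_nonneg_left h7 (by positivity)
  have h11 : (t + 1 : ℝ) * 4 ^ t * C = 4 ^ t * ((t + 1) * C) := by ring
  linarith

end Pool.Agent.Lib.MP_fce458_co
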