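import Mathlib
import Pool.Agent.Lib.MP_fce458_co.Stage1

open Finset

namespace Pool.Agent.Lib.MP_fce458_co

variable {α β γ η : Type*}

lemma num1 (δ : ℝ) (hδ0 : 0 < δ) (hδ1 : δ ≤ 1 / 20000) :
    20 * (1 + δ) ^ 5 ≤ 6 ^ 4 * (1 / 8 - δ) ^ 2 := by
  have e1 : (1 + δ) ^ 5 ≤ (1 + 1 / 20000) ^ 5 := pow_le_pow_left₀ (by linarith) (by linarith) 5
  have e2 : (1 / 8 - 1 / 20000 : ℝ) ^ 2 ≤ (1 / 8 - δ) ^ 2 :=
    pow_le_pow_left₀ (by norm_num) (by linarith) 2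
  have e3 : (20 : ℝ) * (1 + 1 / 20000) ^ 5 ≤ 6 ^ 4 * (1 / 8 - 1 / 20000) ^ 2 := by norm_num
  linarith

/-- The case in which one of the three common neighbourhoods is typically tiny. -/
lemma caseTwo (r1 : α → β → Prop) (r2 : α → γ → Prop) (r3 : α → η → Prop)
    (A : Finset α) (X : Finset β) (Y : Finset γ) (Z : Finset η) (t : ℕ) (δ n G : ℝ)
    (hδ0 : 0 < δ) (hδ1 : δ ≤ 1 / 20000) (ht0 : 2 ≤ t)
    (ht : 4 * (t : ℝ) ^ 2 ≤ δ * (1 + δ) ^ t)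
    (hX : (X.card : ℝ) = n) (hY : (Y.card : ℝ) = n) (hZ : (Z.card : ℝ) = n)
    (hn : (6 : ℝ) ^ t ≤ n)
    (hA : 32 * (t : ℝ) * (1 + δ) / δ ≤ A.card)
    (hdeg : ∀ a ∈ A, 1 / 2 * (Z.card : ℝ) ≤ ((cn r3 {a} Z).card : ℝ))
    (hG : G = n / 6 * ((1 / 8 - δ) / (1 + δ)) ^ t)
    (hsum : G * (n * n) * (A.card : ℝ) ^ t
      ≤ (t.factorial : ℝ) * ∑ S ∈ A.powersetCard t,
          ((cn r1 S X).card : ℝ) * ((cn r2 S Y).card : ℝ)) :
    ∃ S ⊆ A, S.card = t ∧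
      (20 : ℝ) ^ t ≤ ((cn r1 S X).card : ℝ) * ((cn r2 S Y).card : ℝ) ∧
      (1 + δ) ^ t ≤ ((cn r3 S Z).card : ℝ) := by
  have htr : (2 : ℝ) ≤ t := by exact_mod_cast ht0
  have hd1 : (0 : ℝ) < (1 + δ) ^ t := by positivity
  have hLbig : 80000 * (t : ℝ) ^ 2 ≤ (1 + δ) ^ t := by
    nlinarith [mul_nonneg (sub_nonneg.2 hδ1) hd1.le]
  have hL144 : 144 ≤ (1 + δ) ^ t := by nlinarith
  have hLt : (t : ℝ) + 1 ≤ (1 + δ) ^ t := by nlinarith
  have hn0 : 0 < n := lt_of_lt_of_le (by positivity) hn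
  have hG0 : 0 ≤ G := by
    rw [hG]
    apply mul_nonneg (by positivity)
    apply pow_nonneg
    apply div_nonneg <;> linarith
  have hAt : 32 * (t : ℝ) ≤ A.card := by
    refine le_trans ?_ hA
    rw [le_div_iff₀ hδ0]
    nlinarith
  have hA2 : 2 * t ≤ A.card := by
    have : (2 : ℝ) * t ≤ A.card := by linarith
    exact_mod_cast this
  have hGlow : (1 / 6 : ℝ) * (7 / 10) ^ t ≤ G := by
    rw [hG]
    have e1 : (7 / 10 : ℝ) ^ t ≤ (6 * ((1 / 8 - δ) / (1 + δ))) ^ t := by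
      apply pow_le_pow_left₀ (by norm_num)
      rw [← mul_div_assoc, le_div_iff₀ (by linarith)]
      linarith
    rw [mul_pow] at e1
    have e2 : (0 : ℝ) ≤ ((1 / 8 - δ) / (1 + δ)) ^ t := by
      apply pow_nonneg; apply div_nonneg <;> linarith
    have e3 := mul_le_mul_of_nonneg_right hn e2
    linarith
  have hB : (2 * t * ((1 + δ) / δ)) ^ t ≤ G / 2 * (A.card : ℝ) ^ t := by
    have e1 : 2 * t * ((1 + δ) / δ) ≤ (A.card : ℝ) / 16 := by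
      have : 32 * (t : ℝ) * (1 + δ) / δ = 16 * (2 * t * ((1 + δ) / δ)) := by ring
      rw [this] at hA
      linarith
    have e2 : (2 * t * ((1 + δ) / δ)) ^ t ≤ ((A.card : ℝ) / 16) ^ t :=
      pow_le_pow_left₀ (by positivity) e1 t
    have e3 : ((A.card : ℝ) / 16) ^ t = (1 / 16) ^ t * (A.card : ℝ) ^ t := by
      rw [← mul_pow]; congr 1; ring
    have e4 : (1 / 16 : ℝ) ^ t ≤ 1 / 12 * (7 / 10) ^ t := by
      have f1 : (12 : ℝ) ≤ (112 / 10) ^ t := by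
        have : (112 / 10 : ℝ) ^ 2 ≤ (112 / 10) ^ t := pow_le_pow_right₀ (by norm_num) ht0
        norm_num at this ⊢
        linarith
      have f2 : (1 / 16 : ℝ) ^ t * (112 / 10) ^ t = (7 / 10) ^ t := by
        rw [← mul_pow]; norm_num
      have f3 : (0 : ℝ) ≤ (1 / 16) ^ t := by positivity
      nlinarith
    rw [e3] at e2
    refine e2.trans (mul_le_mul_of_nonneg_right ?_ (by positivity))
    linarith
  have hsum' : G * ((X ×ˢ Y).card : ℝ) * (A.card : ℝ) ^ t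
      ≤ (t.factorial : ℝ) * ∑ S ∈ A.powersetCard t,
        ((cn (fun a (w : β × γ) => r1 a w.1 ∧ r2 a w.2) S (X ×ˢ Y)).card : ℝ) := by
    have e1 : ((X ×ˢ Y).card : ℝ) = n * n := by
      rw [card_product]; push_cast; rw [hX, hY]
    rw [e1]
    refine hsum.trans (le_of_eq ?_)
    congr 1
    refine sum_congr rfl ?_
    intro S _
    rw [cn_prod, card_product]
    push_cast
    ring
  obtain ⟨T, hT, hTc, hTW⟩ := pair_case _ A (X ×ˢ Y) t δ G hδ0 hG0 hA2 hsum' hB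
  rw [cn_prod, card_product, card_product] at hTW
  push_cast at hTW
  obtain ⟨S, hS, hSt, hSZ⟩ := sub_pigeon r3 T Z t hTc (fun a ha => hdeg a (hT ha))
  refine ⟨S, hS.trans hT, hSt, ?_, ?_⟩
  · have e1 : ((cn r1 T X).card : ℝ) ≤ (cn r1 S X).card := by
      exact_mod_cast card_le_card (cn_anti hS X)
    have e2 : ((cn r2 T Y).card : ℝ) ≤ (cn r2 S Y).card := by
      exact_mod_cast card_le_card (cn_anti hS Y)
    have e3 : ((cn r1 T X).card : ℝ) * (cn r2 T Y).card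
        ≤ ((cn r1 S X).card : ℝ) * (cn r2 S Y).card :=
      mul_le_mul e1 e2 (by positivity) (by positivity)
    refine le_trans ?_ (hTW.trans e3)
    rw [hX, hY]
    have e4 : n * n * (G / (2 * (1 + δ) ^ t)) ^ 2
        = n ^ 4 * ((1 / 8 - δ) ^ 2 / (1 + δ) ^ 4) ^ t / 144 := by
      have hne : ((1 : ℝ) + δ) ^ t ≠ 0 := ne_of_gt hd1
      have h0 : ((1 / 8 - δ) ^ 2 / (1 + δ) ^ 4) ^ t
          = ((1 / 8 - δ) ^ t) ^ 2 / ((1 + δ) ^ t) ^ 4 := by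
        rw [div_pow, ← pow_mul, ← pow_mul, ← pow_mul, ← pow_mul, mul_comm 2 t, mul_comm 4 t]
      have h3 : ((1 / 8 - δ) / (1 + δ)) ^ t = (1 / 8 - δ) ^ t / (1 + δ) ^ t := div_pow _ _ _
      rw [hG, h0, h3]
      field_simp
      ring
    rw [e4]
    have e5 : ((6 : ℝ) ^ t) ^ 4 ≤ n ^ 4 := pow_le_pow_left₀ (by positivity) hn 4
    have e6 : (0 : ℝ) ≤ ((1 / 8 - δ) ^ 2 / (1 + δ) ^ 4) ^ t := by positivity
    have e7 : (20 * (1 + δ)) ^ t ≤ (6 ^ 4 * ((1 / 8 - δ) ^ 2 / (1 + δ) ^ 4)) ^ t := by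
      apply pow_le_pow_left₀ (by positivity)
      rw [← mul_div_assoc, le_div_iff₀ (by positivity)]
      have := num1 δ hδ0 hδ1
      calc 20 * (1 + δ) * (1 + δ) ^ 4 = 20 * (1 + δ) ^ 5 := by ring
        _ ≤ _ := this
    rw [mul_pow] at e7
    rw [le_div_iff₀ (by norm_num)]
    calc (20 : ℝ) ^ t * 144 ≤ 20 ^ t * (1 + δ) ^ t :=
          mul_le_mul_of_nonneg_left hL144 (by positivity)
      _ ≤ (6 ^ 4 * ((1 / 8 - δ) ^ 2 / (1 + δ) ^ 4)) ^ t := e7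
      _ = (6 ^ t) ^ 4 * ((1 / 8 - δ) ^ 2 / (1 + δ) ^ 4) ^ t := by
          rw [mul_pow, ← pow_mul, ← pow_mul, mul_comm 4 t]
      _ ≤ n ^ 4 * ((1 / 8 - δ) ^ 2 / (1 + δ) ^ 4) ^ t := mul_le_mul_of_nonneg_right e5 e6
  · rw [hZ] at hSZ
    have e1 : (6 : ℝ) ^ t ≤ (t + 1) * 4 ^ t * ((cn r3 S Z).card : ℝ) := hn.trans hSZ
    have e2 : (4 : ℝ) ^ t * ((1 + δ) ^ t * (1 + δ) ^ t) ≤ 6 ^ t := by
      rw [← mul_pow, ← mul_pow]
      apply pow_le_pow_left₀ (by positivity)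
      nlinarith
    have e3 : (4 : ℝ) ^ t * ((t + 1) * (1 + δ) ^ t) ≤ 4 ^ t * ((1 + δ) ^ t * (1 + δ) ^ t) := by
      apply mul_le_mul_of_nonneg_left _ (by positivity)
      exact mul_le_mul_of_nonneg_right hLt hd1.le
    have e4 : (4 : ℝ) ^ t * (t + 1) * (1 + δ) ^ t
        ≤ (4 : ℝ) ^ t * (t + 1) * ((cn r3 S Z).card : ℝ) := by
      calc (4 : ℝ) ^ t * (t + 1) * (1 + δ) ^ t = 4 ^ t * ((t + 1) * (1 + δ) ^ t) := by ring
        _ ≤ 6 ^ t := e3.trans e2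
        _ ≤ (t + 1) * 4 ^ t * ((cn r3 S Z).card : ℝ) := e1
        _ = _ := by ring
    exact le_of_mul_le_mul_left e4 (by positivity)

lemma num2 (ε δ : ℝ) (hε0 : 0 < ε) (hε1 : ε ≤ 1 / 20) (hδ0 : 0 < δ) (hδ : 1000 * δ ≤ ε) :
    (1 + δ) * (3 + ε / 4) ^ 3 ≤ (6 + ε) ^ 3 * (1 / 8 - δ) := by
  have f1 : (6 + ε) ^ 3 * δ ≤ 250 * δ := by
    apply mul_le_mul_of_nonneg_right _ hδ0.le
    calc (6 + ε) ^ 3 ≤ (6 + 1 / 20) ^ 3 := pow_le_pow_left₀ (by linarith) (by linarith) 3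
      _ ≤ 250 := by norm_num
  have f2 : δ * (3 + ε / 4) ^ 3 ≤ δ * 30 := by
    apply mul_le_mul_of_nonneg_left _ hδ0.le
    calc (3 + ε / 4) ^ 3 ≤ (3 + 1 / 80) ^ 3 := pow_le_pow_left₀ (by linarith) (by linarith) 3
      _ ≤ 30 := by norm_num
  have f3 : (3 + ε / 4) ^ 3 + ε ≤ (6 + ε) ^ 3 * (1 / 8) := by
    have : (6 + ε) ^ 3 * (1 / 8) - (3 + ε / 4) ^ 3 - ε
        = (23 / 4) * ε + (27 / 16) * ε ^ 2 + (7 / 64) * ε ^ 3 := by ring
    have : 0 ≤ (23 / 4) * ε + (27 / 16) * ε ^ 2 + (7 / 64) * ε ^ 3 := by positivity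
    linarith
  linarith

lemma num3 (t : ℕ) (ε δ n x : ℝ) (hε0 : 0 < ε) (hε1 : ε ≤ 1 / 20) (hδ0 : 0 < δ)
    (hδ : 1000 * δ ≤ ε) (hn : (6 + ε) ^ t ≤ n) (hx : x = ((3 + ε / 4) ^ 3) ^ t)
    (hL2 : 2 ≤ (1 + δ) ^ t) : 2 * x ≤ n ^ 3 * (1 / 8 - δ) ^ t := by
  have e1 := num2 ε δ hε0 hε1 hδ0 hδ
  have e2 : ((1 + δ) * (3 + ε / 4) ^ 3) ^ t ≤ ((6 + ε) ^ 3 * (1 / 8 - δ)) ^ t :=
    pow_le_pow_left₀ (by positivity) e1 t
  rw [mul_pow, mul_pow] at e2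
  have e3 : ((6 + ε) ^ 3) ^ t ≤ n ^ 3 := by
    rw [← pow_mul, mul_comm, pow_mul]
    exact pow_le_pow_left₀ (by positivity) hn 3
  have e4 : (0 : ℝ) ≤ (1 / 8 - δ) ^ t := pow_nonneg (by linarith) _
  have e5 := mul_le_mul_of_nonneg_right e3 e4
  have px : 0 ≤ x := by rw [hx]; positivity
  have e6 := mul_le_mul_of_nonneg_right hL2 px
  rw [← hx] at e2
  linarith

lemma pt_bound (x L N1 N2 N3 : ℝ) (px : 0 ≤ x) (pL : 0 ≤ L) (p1 : 0 ≤ N1) (p2 : 0 ≤ N2)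
    (p3 : 0 ≤ N3) (h : ¬ (x ≤ N1 * N2 * N3 ∧ L ≤ N1 ∧ L ≤ N2 ∧ L ≤ N3)) :
    N1 * N2 * N3 ≤ x + L * (N1 * N2 + N1 * N3 + N2 * N3) := by
  have p12 : 0 ≤ L * (N1 * N2) := by positivity
  have p13 : 0 ≤ L * (N1 * N3) := by positivity
  have p23 : 0 ≤ L * (N2 * N3) := by positivity
  have hexp : L * (N1 * N2 + N1 * N3 + N2 * N3)
      = L * (N1 * N2) + L * (N1 * N3) + L * (N2 * N3) := by
    ring
  rw [hexp]
  by_cases q1 : L ≤ N1
  · by_cases q2 : L ≤ N2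
    · by_cases q3 : L ≤ N3
      · by_cases q : x ≤ N1 * N2 * N3
        · exact absurd ⟨q, q1, q2, q3⟩ h
        · push Not at q
          linarith
      · push Not at q3
        have : N1 * N2 * N3 ≤ N1 * N2 * L := mul_le_mul_of_nonneg_left q3.le (by positivity)
        linarith
    · push Not at q2
      have : N1 * N3 * N2 ≤ N1 * N3 * L := mul_le_mul_of_nonneg_left q2.le (by positivity)
      linarith
  · push Not at q1
    have : N2 * N3 * N1 ≤ N2 * N3 * L := mul_le_mul_of_nonneg_left q1.le (by positivity)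
    linarith

lemma num4 (t : ℕ) (δ n G : ℝ) (hδ0 : 0 < δ)
    (hG : G = n / 6 * ((1 / 8 - δ) / (1 + δ)) ^ t) :
    (1 + δ) ^ t * (G * (n * n)) * 3 = n ^ 3 * (1 / 8 - δ) ^ t / 2 := by
  rw [hG, div_pow]
  have : ((1 : ℝ) + δ) ^ t ≠ 0 := ne_of_gt (by positivity)
  field_simp
  ring

/-- Stage 1. -/
lemma stage1 (r1 : α → β → Prop) (r2 : α → γ → Prop) (r3 : α → η → Prop)
    (A : Finset α) (X : Finset β) (Y : Finset γ) (Z : Finset η) (t : ℕ) (ε δ n : ℝ)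
    (hε0 : 0 < ε) (hε1 : ε ≤ 1 / 20) (hδ0 : 0 < δ) (hδ : 1000 * δ ≤ ε) (ht0 : 2 ≤ t)
    (ht : 4 * (t : ℝ) ^ 2 ≤ δ * (1 + δ) ^ t)
    (hX : (X.card : ℝ) = n) (hY : (Y.card : ℝ) = n) (hZ : (Z.card : ℝ) = n)
    (hn : (6 + ε) ^ t ≤ n)
    (hA : 32 * (t : ℝ) * (1 + δ) / δ ≤ A.card)
    (hdeg1 : ∀ a ∈ A, 1 / 2 * (X.card : ℝ) ≤ ((cn r1 {a} X).card : ℝ))
    (hdeg2 : ∀ a ∈ A, 1 / 2 * (Y.card : ℝ) ≤ ((cn r2 {a} Y).card : ℝ))
    (hdeg3 : ∀ a ∈ A, 1 / 2 * (Z.card : ℝ) ≤ ((cn r3 {a} Z).card : ℝ)) :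
    ∃ S ⊆ A, S.card = t ∧
      ((((3 + ε / 4) ^ 3) ^ t ≤ ((cn r1 S X).card : ℝ) * (cn r2 S Y).card * (cn r3 S Z).card ∧
        (1 + δ) ^ t ≤ ((cn r1 S X).card : ℝ) ∧ (1 + δ) ^ t ≤ ((cn r2 S Y).card : ℝ) ∧
        (1 + δ) ^ t ≤ ((cn r3 S Z).card : ℝ)) ∨
       ((20 : ℝ) ^ t ≤ ((cn r1 S X).card : ℝ) * (cn r2 S Y).card ∧
        (1 + δ) ^ t ≤ ((cn r3 S Z).card : ℝ)) ∨
       ((20 : ℝ) ^ t ≤ ((cn r1 S X).card : ℝ) * (cn r3 S Z).card ∧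
        (1 + δ) ^ t ≤ ((cn r2 S Y).card : ℝ)) ∨
       ((20 : ℝ) ^ t ≤ ((cn r2 S Y).card : ℝ) * (cn r3 S Z).card ∧
        (1 + δ) ^ t ≤ ((cn r1 S X).card : ℝ))) := by
  have hδ1 : δ ≤ 1 / 20000 := by linarith
  have htr : (2 : ℝ) ≤ t := by exact_mod_cast ht0
  have hd1 : (0 : ℝ) < (1 + δ) ^ t := by positivity
  have hLbig : 80000 * (t : ℝ) ^ 2 ≤ (1 + δ) ^ t := by
    nlinarith [mul_nonneg (sub_nonneg.2 hδ1) hd1.le]
  have hL2 : 2 ≤ (1 + δ) ^ t := by nlinarith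
  have hn0 : 0 < n := lt_of_lt_of_le (by positivity) hn
  have hn6 : (6 : ℝ) ^ t ≤ n := le_trans (pow_le_pow_left₀ (by norm_num) (by linarith) t) hn
  have hAt : (t : ℝ) / δ ≤ A.card := by
    refine le_trans ?_ hA
    apply div_le_div_of_nonneg_right _ hδ0.le
    nlinarith
  have hAt2 : (t : ℝ) ≤ δ * A.card := by
    rw [div_le_iff₀ hδ0] at hAt; linarith
  by_contra hcon
  set L := (1 + δ) ^ t with hL
  set G := n / 6 * ((1 / 8 - δ) / (1 + δ)) ^ t with hG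
  set x := ((3 + ε / 4) ^ 3) ^ t with hx
  have hG0 : 0 ≤ ((1 / 8 - δ) / (1 + δ)) ^ t := by
    apply pow_nonneg; apply div_nonneg <;> linarith
  -- three sums
  set Q12 := ∑ S ∈ A.powersetCard t, ((cn r1 S X).card : ℝ) * ((cn r2 S Y).card : ℝ) with hQ12
  set Q13 := ∑ S ∈ A.powersetCard t, ((cn r1 S X).card : ℝ) * ((cn r3 S Z).card : ℝ) with hQ13
  set Q23 := ∑ S ∈ A.powersetCard t, ((cn r2 S Y).card : ℝ) * ((cn r3 S Z).card : ℝ) with hQ23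
  have h12 : (t.factorial : ℝ) * Q12 < G * (n * n) * (A.card : ℝ) ^ t := by
    by_contra hc
    push Not at hc
    obtain ⟨S, h1, h2, h3, h4⟩ := caseTwo r1 r2 r3 A X Y Z t δ n G hδ0 hδ1 ht0 ht hX hY hZ hn6 hA
      hdeg3 hG hc
    exact hcon ⟨S, h1, h2, Or.inr (Or.inl ⟨h3, h4⟩)⟩
  have h13 : (t.factorial : ℝ) * Q13 < G * (n * n) * (A.card : ℝ) ^ t := by
    by_contra hc
    push Not at hc
    obtain ⟨S, h1, h2, h3, h4⟩ := caseTwo r1 r3 r2 A X Z Y t δ n G hδ0 hδ1 ht0 ht hX hZ hY hn6 hA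
      hdeg2 hG hc
    exact hcon ⟨S, h1, h2, Or.inr (Or.inr (Or.inl ⟨h3, h4⟩))⟩
  have h23 : (t.factorial : ℝ) * Q23 < G * (n * n) * (A.card : ℝ) ^ t := by
    by_contra hc
    push Not at hc
    obtain ⟨S, h1, h2, h3, h4⟩ := caseTwo r2 r3 r1 A Y Z X t δ n G hδ0 hδ1 ht0 ht hY hZ hX hn6 hA
      hdeg1 hG hc
    exact hcon ⟨S, h1, h2, Or.inr (Or.inr (Or.inr ⟨h3, h4⟩))⟩
  -- the triple sum
  set P := ∑ S ∈ A.powersetCard t,
    ((cn (fun a (w : β × (γ × η)) => r1 a w.1 ∧ (r2 a w.2.1 ∧ r3 a w.2.2)) S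
      (X ×ˢ (Y ×ˢ Z))).card : ℝ) with hP
  have hcnS : ∀ S : Finset α,
      ((cn (fun a (w : β × (γ × η)) => r1 a w.1 ∧ (r2 a w.2.1 ∧ r3 a w.2.2)) S
        (X ×ˢ (Y ×ˢ Z))).card : ℝ)
      = ((cn r1 S X).card : ℝ) * (cn r2 S Y).card * (cn r3 S Z).card := by
    intro S
    rw [cn_prod r1 (fun a (w : γ × η) => r2 a w.1 ∧ r3 a w.2) S X (Y ×ˢ Z), cn_prod, card_product,
      card_product]
    push_cast
    ring
  have hPlow : n ^ 3 * ((1 / 8 - δ) ^ t * (A.card : ℝ) ^ t) ≤ (t.factorial : ℝ) * P := by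
    have hk := kst_sum (fun a (w : β × (γ × η)) => r1 a w.1 ∧ (r2 a w.2.1 ∧ r3 a w.2.2)) A
      (X ×ˢ (Y ×ˢ Z)) t (1 / 8) (by
        intro a ha
        rw [hcnS, card_product, card_product]
        push_cast
        have e1 := hdeg1 a ha
        have e2 := hdeg2 a ha
        have e3 := hdeg3 a ha
        have e4 : (1 / 2 * (X.card : ℝ)) * (1 / 2 * (Y.card : ℝ))
            ≤ ((cn r1 {a} X).card : ℝ) * ((cn r2 {a} Y).card : ℝ) :=
          mul_le_mul e1 e2 (by positivity) (by positivity)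
        have e5 : (1 / 2 * (X.card : ℝ)) * (1 / 2 * (Y.card : ℝ)) * (1 / 2 * (Z.card : ℝ))
            ≤ ((cn r1 {a} X).card : ℝ) * ((cn r2 {a} Y).card : ℝ) * ((cn r3 {a} Z).card : ℝ) :=
          mul_le_mul e4 e3 (by positivity) (by positivity)
        linarith) (by nlinarith)
    refine le_trans ?_ hk
    rw [card_product, card_product]
    push_cast
    rw [hX, hY, hZ, ← mul_pow]
    have e1 : ((1 / 8 - δ) * (A.card : ℝ)) ^ t ≤ (1 / 8 * (A.card : ℝ) - t) ^ t := by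
      apply pow_le_pow_left₀ _ (by linarith)
      apply mul_nonneg (by linarith) (by positivity)
    have e2 : n ^ 3 = n * (n * n) := by ring
    rw [e2]
    exact mul_le_mul_of_nonneg_left e1 (by positivity)
  -- pointwise bound
  have hpt : ∀ S ∈ A.powersetCard t,
      ((cn (fun a (w : β × (γ × η)) => r1 a w.1 ∧ (r2 a w.2.1 ∧ r3 a w.2.2)) S
        (X ×ˢ (Y ×ˢ Z))).card : ℝ)
      ≤ x + L * (((cn r1 S X).card : ℝ) * (cn r2 S Y).card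
          + ((cn r1 S X).card : ℝ) * (cn r3 S Z).card
          + ((cn r2 S Y).card : ℝ) * (cn r3 S Z).card) := by
    intro S hS
    rw [mem_powersetCard] at hS
    rw [hcnS]
    refine pt_bound x L _ _ _ (by positivity) (by positivity) (by positivity) (by positivity)
      (by positivity) ?_
    rintro ⟨q, q1, q2, q3⟩
    exact hcon ⟨S, hS.1, hS.2, Or.inl ⟨q, q1, q2, q3⟩⟩
  have hPup : (t.factorial : ℝ) * P
      ≤ (A.card : ℝ) ^ t * x + L * ((t.factorial : ℝ) * Q12 + (t.factorial : ℝ) * Q13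
          + (t.factorial : ℝ) * Q23) := by
    have e1 : P ≤ (A.card.choose t : ℝ) * x + L * (Q12 + Q13 + Q23) := by
      rw [hP]
      refine (sum_le_sum hpt).trans (le_of_eq ?_)
      rw [sum_add_distrib, sum_const, card_powersetCard, nsmul_eq_mul, ← mul_sum,
        sum_add_distrib, sum_add_distrib]
    have e2 := choose_le_pow_div' A.card t
    have hf : (0 : ℝ) ≤ t.factorial := by positivity
    have px : 0 ≤ x := by positivity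
    have e3 := mul_le_mul_of_nonneg_left e1 hf
    have e4 := mul_le_mul_of_nonneg_right e2 px
    calc (t.factorial : ℝ) * P
        ≤ (t.factorial : ℝ) * ((A.card.choose t : ℝ) * x + L * (Q12 + Q13 + Q23)) := e3
      _ = (t.factorial : ℝ) * (A.card.choose t : ℝ) * x + L * ((t.factorial : ℝ) * Q12
          + (t.factorial : ℝ) * Q13 + (t.factorial : ℝ) * Q23) := by ring
      _ ≤ _ := by linarith
  -- x is at most half
  have hxle : 2 * x ≤ n ^ 3 * (1 / 8 - δ) ^ t := num3 t ε δ n x hε0 hε1 hδ0 hδ hn hx hL2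
  have hLG : L * (G * (n * n)) * 3 = n ^ 3 * (1 / 8 - δ) ^ t / 2 := num4 t δ n G hδ0 hG
  have hApos : (0 : ℝ) < (A.card : ℝ) ^ t := by
    apply pow_pos
    have : (0 : ℝ) < t / δ := by positivity
    linarith
  have hLpos : 0 < L := by positivity
  have s1 : L * ((t.factorial : ℝ) * Q12 + (t.factorial : ℝ) * Q13 + (t.factorial : ℝ) * Q23)
      < L * (3 * (G * (n * n) * (A.card : ℝ) ^ t)) := by
    apply mul_lt_mul_of_pos_left _ hLpos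
    linarith
  have s2 : L * (3 * (G * (n * n) * (A.card : ℝ) ^ t))
      = n ^ 3 * (1 / 8 - δ) ^ t / 2 * (A.card : ℝ) ^ t := by
    rw [← hLG]; ring
  have s3 := mul_le_mul_of_nonneg_left hxle hApos.le
  have s4 : n ^ 3 * ((1 / 8 - δ) ^ t * (A.card : ℝ) ^ t)
      = n ^ 3 * (1 / 8 - δ) ^ t * (A.card : ℝ) ^ t := by ring
  rw [s4] at hPlow
  linarith

end Pool.Agent.Lib.MP_fce458_co
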