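import Mathlib
import Pool.Agent.Lib.MP_fce458_co.Stage1b

open Finset

namespace Pool.Agent.Lib.MP_fce458_co

/-- no canonical monochromatic copy -/
def NoCan (N t : ℕ) (c : Fin 6 → Fin 6 → Fin N → Fin N → Bool) : Prop :=
  ∀ (k : Bool) (i j l : Fin 6), i ≠ j → i ≠ l → j ≠ l → ∀ A B C : Finset (Fin N),
    A.card = t → B.card = t → C.card = t →
    ¬ ((∀ a ∈ A, ∀ b ∈ B, c i j a b = k) ∧ (∀ a ∈ A, ∀ d ∈ C, c i l a d = k) ∧
      (∀ b ∈ B, ∀ d ∈ C, c j l b d = k))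

lemma noK2_of {N t : ℕ} {c : Fin 6 → Fin 6 → Fin N → Fin N → Bool} (hno : NoCan N t c)
    (k : Bool) (p q : Fin 6) (hp : (0 : Fin 6) ≠ p) (hq : (0 : Fin 6) ≠ q) (hpq : p ≠ q)
    (S P Q : Finset (Fin N)) (hS : S.card = t) (hSP : ∀ a ∈ S, ∀ b ∈ P, c 0 p a b = k)
    (hSQ : ∀ a ∈ S, ∀ b ∈ Q, c 0 q a b = k) : NoK2 t (fun x y => c p q x y = k) P Q := by
  intro S1 hS1 S2 hS2 h1 h2 h3
  exact hno k 0 p q hp hq hpq S S1 S2 hS h1 h2
    ⟨fun a ha b hb => hSP a ha b (hS1 hb), fun a ha b hb => hSQ a ha b (hS2 hb), h3⟩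

lemma blue_of {N t : ℕ} {c : Fin 6 → Fin 6 → Fin N → Fin N → Bool} (hno : NoCan N t c)
    (k : Bool) (p q r : Fin 6) (hrp : r ≠ p) (hrq : r ≠ q) (hpq : p ≠ q)
    (X Y Z : Finset (Fin N)) :
    ∀ S ⊆ Z, ∀ S1 ⊆ X, ∀ S2 ⊆ Y, S.card = t → S1.card = t → S2.card = t →
      ¬ ((∀ a ∈ S, ∀ b ∈ S1, ¬ (c r p a b = k)) ∧ (∀ a ∈ S, ∀ d ∈ S2, ¬ (c r q a d = k)) ∧
        (∀ b ∈ S1, ∀ d ∈ S2, ¬ (c p q b d = k))) := by
  intro S _ S1 _ S2 _ h h1 h2 hcon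
  refine hno (!k) r p q hrp hrq hpq S S1 S2 h h1 h2 ⟨?_, ?_, ?_⟩
  · intro a ha b hb
    have := hcon.1 a ha b hb
    cases k <;> simpa using this
  · intro a ha b hb
    have := hcon.2.1 a ha b hb
    cases k <;> simpa using this
  · intro a ha b hb
    have := hcon.2.2 a ha b hb
    cases k <;> simpa using this

lemma root_exists (m t : ℕ) (ht : t ≠ 0) (hm : 0 < m) :
    ∃ c : ℝ, 0 < c ∧ (m : ℝ) = c ^ t := by
  refine ⟨(m : ℝ) ^ ((t : ℝ)⁻¹), by positivity, ?_⟩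
  rw [Real.rpow_inv_natCast_pow (by positivity) ht]

lemma final_sorted {N t : ℕ} {c : Fin 6 → Fin 6 → Fin N → Fin N → Bool} (hno : NoCan N t c)
    (k : Bool) (p q r : Fin 6) (hp : (0 : Fin 6) ≠ p) (hq : (0 : Fin 6) ≠ q)
    (hr : (0 : Fin 6) ≠ r) (hrp : r ≠ p) (hrq : r ≠ q) (hpq : p ≠ q)
    (S X Y Z : Finset (Fin N)) (hS : S.card = t)
    (hSX : ∀ a ∈ S, ∀ b ∈ X, c 0 p a b = k)
    (hSY : ∀ a ∈ S, ∀ b ∈ Y, c 0 q a b = k)
    (hSZ : ∀ a ∈ S, ∀ b ∈ Z, c 0 r a b = k)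
    (ε δ c1 c2 c3 : ℝ) (hε0 : 0 < ε) (hε1 : ε ≤ 1 / 20) (hδ0 : 0 < δ) (hδ : 1000 * δ ≤ ε)
    (ht0 : 0 < t)
    (hX : (X.card : ℝ) = c1 ^ t) (hY : (Y.card : ℝ) = c2 ^ t) (hZ : (Z.card : ℝ) = c3 ^ t)
    (ht : 4 * (t : ℝ) ^ 2 ≤ δ * (1 + δ) ^ t)
    (h12 : c2 ≤ c1) (h23 : c3 ≤ c2) (hc3 : 1 + δ ≤ c3) (hc1 : c1 ≤ 61 / 10)
    (hprod : (3 + ε / 4) ^ 3 ≤ c1 * c2 * c3) : False :=
  stage2_sorted (fun z x => c r p z x = k) (fun z y => c r q z y = k) (fun x y => c p q x y = k)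
    Z X Y (noK2_of hno k r p hr hp hrp S Z X hS hSZ hSX)
    (noK2_of hno k r q hr hq hrq S Z Y hS hSZ hSY)
    (noK2_of hno k p q hp hq hpq S X Y hS hSX hSY)
    (blue_of hno k p q r hrp hrq hpq X Y Z) ε δ c1 c2 c3 hε0 hε1 hδ0 hδ ht0 hX hY hZ ht h12 h23
    hc3 hc1 hprod

lemma final_big {N t : ℕ} {c : Fin 6 → Fin 6 → Fin N → Fin N → Bool} (hno : NoCan N t c)
    (k : Bool) (p q r : Fin 6) (hp : (0 : Fin 6) ≠ p) (hq : (0 : Fin 6) ≠ q)
    (hr : (0 : Fin 6) ≠ r) (hrp : r ≠ p) (hrq : r ≠ q) (hpq : p ≠ q)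
    (S X Y Z : Finset (Fin N)) (hS : S.card = t)
    (hSX : ∀ a ∈ S, ∀ b ∈ X, c 0 p a b = k)
    (hSY : ∀ a ∈ S, ∀ b ∈ Y, c 0 q a b = k)
    (hSZ : ∀ a ∈ S, ∀ b ∈ Z, c 0 r a b = k)
    (δ : ℝ) (hδ0 : 0 < δ) (hδ1 : δ ≤ 1 / 20000)
    (ht0 : 0 < t)
    (hN : (N : ℝ) ≤ (61 / 10) ^ t)
    (hprod : (20 : ℝ) ^ t ≤ (X.card : ℝ) * Y.card) (hZ : (1 + δ) ^ t ≤ (Z.card : ℝ))
    (ht : 4 * (t : ℝ) ^ 2 ≤ δ * (1 + δ) ^ t) : False := by
  have h20 : (0 : ℝ) < 20 ^ t := by positivity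
  have hXpos : 0 < X.card := by
    rcases Nat.eq_zero_or_pos X.card with h | h
    · rw [h] at hprod; simp at hprod; linarith
    · exact h
  have hYpos : 0 < Y.card := by
    rcases Nat.eq_zero_or_pos Y.card with h | h
    · rw [h] at hprod; simp at hprod; linarith
    · exact h
  obtain ⟨c1, hc1, hX⟩ := root_exists X.card t (by omega) hXpos
  obtain ⟨c2, hc2, hY⟩ := root_exists Y.card t (by omega) hYpos
  have hle : ∀ (W : Finset (Fin N)) (d : ℝ), 0 < d → (W.card : ℝ) = d ^ t → d ≤ 61 / 10 := by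
    intro W d hd hW
    have h1 : (W.card : ℝ) ≤ N := by
      have := card_le_univ W
      rw [Fintype.card_fin] at this
      exact_mod_cast this
    have h2 : d ^ t ≤ (61 / 10) ^ t := by rw [← hW]; exact h1.trans hN
    exact le_of_pow_le_pow_left₀ (by omega) (by norm_num) h2
  refine stage2_big (fun z x => c r p z x = k) (fun z y => c r q z y = k)
    (fun x y => c p q x y = k)
    Z X Y (noK2_of hno k r p hr hp hrp S Z X hS hSZ hSX)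
    (noK2_of hno k r q hr hq hrq S Z Y hS hSZ hSY)
    (noK2_of hno k p q hp hq hpq S X Y hS hSX hSY)
    (blue_of hno k p q r hrp hrq hpq X Y Z) δ c1 c2 hδ0 hδ1 ht0 hX hY hZ ht hc1 hc2
    (hle X c1 hc1 hX) (hle Y c2 hc2 hY) ?_
  have h2 : (20 : ℝ) ^ t ≤ (c1 * c2) ^ t := by rw [mul_pow, ← hX, ← hY]; exact hprod
  exact le_of_pow_le_pow_left₀ (by omega) (by positivity) h2

lemma final_any {N t : ℕ} {c : Fin 6 → Fin 6 → Fin N → Fin N → Bool} (hno : NoCan N t c)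
    (k : Bool) (p q r : Fin 6) (hp : (0 : Fin 6) ≠ p) (hq : (0 : Fin 6) ≠ q)
    (hr : (0 : Fin 6) ≠ r) (hrp : r ≠ p) (hrq : r ≠ q) (hpq : p ≠ q)
    (S X Y Z : Finset (Fin N)) (hS : S.card = t)
    (hSX : ∀ a ∈ S, ∀ b ∈ X, c 0 p a b = k)
    (hSY : ∀ a ∈ S, ∀ b ∈ Y, c 0 q a b = k)
    (hSZ : ∀ a ∈ S, ∀ b ∈ Z, c 0 r a b = k)
    (ε δ : ℝ) (hε0 : 0 < ε) (hε1 : ε ≤ 1 / 20) (hδ0 : 0 < δ) (hδ : 1000 * δ ≤ ε)
    (ht0 : 0 < t)
    (ht : 4 * (t : ℝ) ^ 2 ≤ δ * (1 + δ) ^ t)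
    (hN : (N : ℝ) ≤ (61 / 10) ^ t)
    (hprod : ((3 + ε / 4) ^ 3) ^ t ≤ (X.card : ℝ) * Y.card * Z.card)
    (h1 : (1 + δ) ^ t ≤ (X.card : ℝ)) (h2 : (1 + δ) ^ t ≤ (Y.card : ℝ))
    (h3 : (1 + δ) ^ t ≤ (Z.card : ℝ)) : False := by
  have hpos : ∀ W : Finset (Fin N), (1 + δ) ^ t ≤ (W.card : ℝ) → 0 < W.card := by
    intro W hW
    have : (0 : ℝ) < W.card := lt_of_lt_of_le (by positivity) hW
    exact_mod_cast this
  obtain ⟨c1, hc1, hX⟩ := root_exists X.card t (by omega) (hpos X h1)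
  obtain ⟨c2, hc2, hY⟩ := root_exists Y.card t (by omega) (hpos Y h2)
  obtain ⟨c3, hc3, hZ⟩ := root_exists Z.card t (by omega) (hpos Z h3)
  have hle : ∀ (W : Finset (Fin N)) (d : ℝ), 0 < d → (W.card : ℝ) = d ^ t → d ≤ 61 / 10 := by
    intro W d hd hW
    have h1 : (W.card : ℝ) ≤ N := by
      have := card_le_univ W
      rw [Fintype.card_fin] at this
      exact_mod_cast this
    have h2 : d ^ t ≤ (61 / 10) ^ t := by rw [← hW]; exact h1.trans hN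
    exact le_of_pow_le_pow_left₀ (by omega) (by norm_num) h2
  have g1 : 1 + δ ≤ c1 := le_of_pow_le_pow_left₀ (n := t) (by omega) hc1.le (by rw [← hX]; exact h1)
  have g2 : 1 + δ ≤ c2 := le_of_pow_le_pow_left₀ (n := t) (by omega) hc2.le (by rw [← hY]; exact h2)
  have g3 : 1 + δ ≤ c3 := le_of_pow_le_pow_left₀ (n := t) (by omega) hc3.le (by rw [← hZ]; exact h3)
  have hP : (3 + ε / 4) ^ 3 ≤ c1 * c2 * c3 := by
    apply le_of_pow_le_pow_left₀ (n := t) (by omega) (by positivity)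
    rw [mul_pow, mul_pow, ← hX, ← hY, ← hZ]; exact hprod
  have l1 := hle X c1 hc1 hX
  have l2 := hle Y c2 hc2 hY
  have l3 := hle Z c3 hc3 hZ
  rcases le_total c1 c2 with h12 | h12
  · rcases le_total c2 c3 with h23 | h23
    · -- c1 ≤ c2 ≤ c3
      exact final_sorted hno k r q p hr hq hp hrp.symm hpq hrq S Z Y X hS hSZ hSY hSX
        ε δ c3 c2 c1 hε0 hε1 hδ0 hδ ht0 hZ hY hX ht h23 h12 g1 l3 (by linarith)
    · rcases le_total c1 c3 with h13 | h13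
      · -- c1 ≤ c3 ≤ c2
        exact final_sorted hno k q r p hq hr hp hpq hrp.symm hrq.symm S Y Z X hS hSY hSZ hSX
          ε δ c2 c3 c1 hε0 hε1 hδ0 hδ ht0 hY hZ hX ht h23 h13 g1 l2 (by linarith)
      · -- c3 ≤ c1 ≤ c2
        exact final_sorted hno k q p r hq hp hr hrq hrp hpq.symm S Y X Z hS hSY hSX hSZ
          ε δ c2 c1 c3 hε0 hε1 hδ0 hδ ht0 hY hX hZ ht h12 h13 g3 l2 (by linarith)
  · rcases le_total c1 c3 with h13 | h13
    · -- c2 ≤ c1 ≤ c3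
      exact final_sorted hno k r p q hr hp hq hrq.symm hpq.symm hrp S Z X Y hS hSZ hSX hSY
        ε δ c3 c1 c2 hε0 hε1 hδ0 hδ ht0 hZ hX hY ht h13 h12 g2 l3 (by linarith)
    · rcases le_total c2 c3 with h23 | h23
      · -- c2 ≤ c3 ≤ c1
        exact final_sorted hno k p r q hp hr hq hpq.symm hrq.symm hrp.symm S X Z Y hS hSX hSZ hSY
          ε δ c1 c3 c2 hε0 hε1 hδ0 hδ ht0 hX hZ hY ht h13 h23 g2 l1 (by linarith)
      · -- c3 ≤ c2 ≤ c1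
        exact final_sorted hno k p q r hp hq hr hrp hrq hpq S X Y Z hS hSX hSY hSZ
          ε δ c1 c2 c3 hε0 hε1 hδ0 hδ ht0 hX hY hZ ht h12 h23 g3 l1 (by linarith)

lemma three_of_five (g : Fin 6 → Bool) : ∃ (k : Bool) (i j l : Fin 6), 0 < i ∧ i < j ∧ j < l ∧
    g i = k ∧ g j = k ∧ g l = k := by
  revert g; decide

lemma core {N t : ℕ} (c : Fin 6 → Fin 6 → Fin N → Fin N → Bool) (hno : NoCan N t c)
    (ε δ : ℝ) (hε0 : 0 < ε) (hε1 : ε ≤ 1 / 20) (hδ0 : 0 < δ) (hδ : 1000 * δ ≤ ε)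
    (ht0 : 2 ≤ t) (ht : 4 * (t : ℝ) ^ 2 ≤ δ * (1 + δ) ^ t)
    (hn1 : (6 + ε) ^ t ≤ (N : ℝ)) (hn2 : (N : ℝ) ≤ (61 / 10) ^ t)
    (hbig : 32 * (t : ℝ) * (1 + δ) / δ + 1 ≤ N / 432) : False := by
  classical
  -- majority colours
  set maj : Fin N → Fin 6 → Bool := fun v j =>
    decide (1 / 2 * (N : ℝ) ≤ ((cn (fun v x => c 0 j v x = true) {v} (univ : Finset (Fin N))).card : ℝ))
    with hmaj
  have hmaj1 : ∀ v j k, maj v j = k →
      1 / 2 * ((univ : Finset (Fin N)).card : ℝ)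
        ≤ ((cn (fun v x => c 0 j v x = k) {v} (univ : Finset (Fin N))).card : ℝ) := by
    intro v j k hk
    rw [card_univ, Fintype.card_fin]
    cases k with
    | true =>
      simp only [hmaj, decide_eq_true_eq] at hk
      exact hk
    | false =>
      simp only [hmaj, decide_eq_false_iff_not] at hk
      push Not at hk
      have h1 := card_cn_not (fun v x => c 0 j v x = true) v (univ : Finset (Fin N))
      have h2 : cn (fun v x => c 0 j v x = false) {v} (univ : Finset (Fin N))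
          = cn (fun v x => ¬ c 0 j v x = true) {v} (univ : Finset (Fin N)) := by
        ext x; simp [mem_cn]
      rw [h2]
      rw [card_univ, Fintype.card_fin] at h1
      have h3 : ((cn (fun v x => c 0 j v x = true) {v} (univ : Finset (Fin N))).card : ℝ)
          + ((cn (fun v x => ¬ c 0 j v x = true) {v} (univ : Finset (Fin N))).card : ℝ) = N := by
        exact_mod_cast h1
      linarith
  choose K I J L hsel using fun v => three_of_five (maj v)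
  obtain ⟨y, _, hy⟩ := exists_le_card_fiber_of_mul_le_card_of_maps_to
    (s := (univ : Finset (Fin N))) (t := (univ : Finset (Bool × Fin 6 × Fin 6 × Fin 6)))
    (f := fun v => (K v, I v, J v, L v)) (n := N / 432) (fun _ _ => mem_univ _) univ_nonempty
    (by
      rw [card_univ, card_univ]
      simp only [Fintype.card_prod, Fintype.card_bool, Fintype.card_fin]
      have := Nat.div_mul_le_self N 432
      omega)
  obtain ⟨k, i, j, l⟩ := y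
  set A := univ.filter (fun v : Fin N => (K v, I v, J v, L v) = (k, i, j, l)) with hA
  have hAcard : 32 * (t : ℝ) * (1 + δ) / δ ≤ A.card := by
    have h1 : ((N / 432 : ℕ) : ℝ) ≤ A.card := by exact_mod_cast hy
    have h2 : (N : ℝ) / 432 - 1 ≤ ((N / 432 : ℕ) : ℝ) := by
      have h3 : N ≤ 432 * (N / 432) + 432 := by omega
      have h4 : (N : ℝ) ≤ 432 * ((N / 432 : ℕ) : ℝ) + 432 := by exact_mod_cast h3
      linarith
    linarith
  have hAne : A.Nonempty := by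
    rw [← card_pos]
    have : (0 : ℝ) < A.card := by
      refine lt_of_lt_of_le ?_ hAcard
      have : (0 : ℝ) < t := by exact_mod_cast (by omega : 0 < t)
      positivity
    exact_mod_cast this
  have hAprop : ∀ v ∈ A, 0 < i ∧ i < j ∧ j < l ∧ maj v i = k ∧ maj v j = k ∧ maj v l = k := by
    intro v hv
    rw [hA, mem_filter] at hv
    have h1 := hv.2
    simp only [Prod.mk.injEq] at h1
    obtain ⟨e1, e2, e3, e4⟩ := h1
    have := hsel v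
    rw [e1, e2, e3, e4] at this
    exact this
  obtain ⟨v0, hv0⟩ := hAne
  obtain ⟨hi, hij, hjl, -, -, -⟩ := hAprop v0 hv0
  have hcardU : ((univ : Finset (Fin N)).card : ℝ) = N := by simp
  obtain ⟨S, hSA, hSt, hout⟩ := stage1 (fun v x => c 0 i v x = k) (fun v x => c 0 j v x = k)
    (fun v x => c 0 l v x = k) A univ univ univ t ε δ N hε0 hε1 hδ0 hδ ht0 ht hcardU hcardU hcardU
    hn1 hAcard
    (fun v hv => hmaj1 v i k (hAprop v hv).2.2.2.1)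
    (fun v hv => hmaj1 v j k (hAprop v hv).2.2.2.2.1)
    (fun v hv => hmaj1 v l k (hAprop v hv).2.2.2.2.2)
  have hi0 : (0 : Fin 6) ≠ i := ne_of_lt hi
  have hj0 : (0 : Fin 6) ≠ j := ne_of_lt (hi.trans hij)
  have hl0 : (0 : Fin 6) ≠ l := ne_of_lt (hi.trans (hij.trans hjl))
  have hij' : i ≠ j := ne_of_lt hij
  have hjl' : j ≠ l := ne_of_lt hjl
  have hil' : i ≠ l := ne_of_lt (hij.trans hjl)
  have hδ1 : δ ≤ 1 / 20000 := by linarith
  have ht0' : 0 < t := by omega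
  have m1 : ∀ a ∈ S, ∀ b ∈ cn (fun v x => c 0 i v x = k) S univ, c 0 i a b = k :=
    fun a ha b hb => (mem_cn.1 hb).2 a ha
  have m2 : ∀ a ∈ S, ∀ b ∈ cn (fun v x => c 0 j v x = k) S univ, c 0 j a b = k :=
    fun a ha b hb => (mem_cn.1 hb).2 a ha
  have m3 : ∀ a ∈ S, ∀ b ∈ cn (fun v x => c 0 l v x = k) S univ, c 0 l a b = k :=
    fun a ha b hb => (mem_cn.1 hb).2 a ha
  rcases hout with ⟨h, h1, h2, h3⟩ | ⟨h, h1⟩ | ⟨h, h1⟩ | ⟨h, h1⟩
  · exact final_any hno k i j l hi0 hj0 hl0 hil'.symm hjl'.symm hij' S _ _ _ hSt m1 m2 m3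
      ε δ hε0 hε1 hδ0 hδ ht0' ht hn2 h h1 h2 h3
  · exact final_big hno k i j l hi0 hj0 hl0 hil'.symm hjl'.symm hij' S _ _ _ hSt m1 m2 m3
      δ hδ0 hδ1 ht0' hn2 h h1 ht
  · exact final_big hno k i l j hi0 hl0 hj0 hij'.symm hjl' hil' S _ _ _ hSt m1 m3 m2
      δ hδ0 hδ1 ht0' hn2 h h1 ht
  · exact final_big hno k j l i hj0 hl0 hi0 hij' hil' hjl' S _ _ _ hSt m2 m3 m1
      δ hδ0 hδ1 ht0' hn2 h h1 ht

end Pool.Agent.Lib.MP_fce458_co
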